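import Mathlib

set_option autoImplicit false

namespace R3A
open Finset BigOperators

/-- shift of `x : K → A` by the integer vector `w` times `e`. -/
def sh {K A : Type} [AddCommGroup A] (e : A) (w : K → ℤ) (x : K → A) : K → A :=
  fun i => x i + w i • e

/-- values in the unit interval -/
def U01 {X : Type} (f : X → ℝ) : Prop := ∀ x, 0 ≤ f x ∧ f x ≤ 1

/-- random bits for one main move: two bits for every coordinate -/
abbrev Bt (β : Type) (d : ℕ) : Type := (β ⊕ Fin d) × Bool → ZMod 2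

/-- difference of two bits, as an integer -/
def dbit (a b : ZMod 2) : ℤ := (a.val : ℤ) - (b.val : ℤ)

/-- the main move `v` in the coordinates `β ⊕ Fin d`: `1` at `v`, random in `{-1,0,1}` at the lower
coordinates, `0` at the higher ones. -/
def wv {β : Type} {d : ℕ} (a : Bt β d) (v : Fin d) : β ⊕ Fin d → ℤ
  | Sum.inl b => dbit (a (Sum.inl b, false)) (a (Sum.inl b, true))
  | Sum.inr l => if l < v then dbit (a (Sum.inr l, false)) (a (Sum.inr l, true))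
      else if l = v then 1 else 0

/-- nonnegative shift by the bits `a` at the coordinates `β` and `l < v` -/
def low {β : Type} {d : ℕ} (v : ℕ) (a : β ⊕ Fin d → ZMod 2) : β ⊕ Fin d → ℤ
  | Sum.inl b => ((a (Sum.inl b)).val : ℤ)
  | Sum.inr l => if (l : ℕ) < v then ((a (Sum.inr l)).val : ℤ) else 0

/-- unit vector of the main coordinate `v` -/
def unitv {β : Type} {d : ℕ} (v : Fin d) : β ⊕ Fin d → ℤ
  | Sum.inl _ => 0
  | Sum.inr l => if l = v then 1 else 0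

/-- average over a cube of shifts -/
noncomputable def Bav {β A : Type} {d : ℕ} [Fintype β] [DecidableEq β] [AddCommGroup A] (e : A)
    (v : ℕ) (f : (β ⊕ Fin d → A) → ℝ) (z : β ⊕ Fin d → A) : ℝ :=
  𝔼 a : β ⊕ Fin d → ZMod 2, f (sh e (low v a) z)

/-- parity shift of the index coordinates caused by the main move -/
def tau {β : Type} {d : ℕ} (a : Bt β d) : β → ZMod 2 :=
  fun b => a (Sum.inl b, false) - a (Sum.inl b, true)

/-- the index read off at `z` -/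
def sg {β A : Type} {d : ℕ} [AddCommGroup A] (p : A →+ ZMod 2) (s : β → ZMod 2)
    (z : β ⊕ Fin d → A) : β → ZMod 2 := fun b => s b + p (z (Sum.inl b))

/-- average over `v` of `f (z + w(u,v))` -/
noncomputable def Tu {β A : Type} {d : ℕ} [AddCommGroup A] (e : A)
    (u : Fin d → Bt β d) (f : (β ⊕ Fin d → A) → ℝ) (z : β ⊕ Fin d → A) : ℝ :=
  𝔼 v, f (sh e (wv (u v) v) z)

/-- average over `v` of `f (z - w(u,v))` -/
noncomputable def Tu' {β A : Type} {d : ℕ} [AddCommGroup A] (e : A)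
    (u : Fin d → Bt β d) (f : (β ⊕ Fin d → A) → ℝ) (z : β ⊕ Fin d → A) : ℝ :=
  𝔼 v, f (sh e (-(wv (u v) v)) z)

noncomputable def Rop {β A : Type} {d : ℕ} [Fintype β] [DecidableEq β] [AddCommGroup A] (e : A)
    (u : Fin d → Bt β d) (f : (β ⊕ Fin d → A) → ℝ) (z : β ⊕ Fin d → A) : ℝ :=
  Tu e u f z - 𝔼 u' : Fin d → Bt β d, Tu e u' f z

noncomputable def Rop' {β A : Type} {d : ℕ} [Fintype β] [DecidableEq β] [AddCommGroup A] (e : A)
    (u : Fin d → Bt β d) (f : (β ⊕ Fin d → A) → ℝ) (z : β ⊕ Fin d → A) : ℝ :=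
  Tu' e u f z - 𝔼 u' : Fin d → Bt β d, Tu' e u' f z

/-- the new operator -/
noncomputable def Gn {β A X : Type} {d : ℕ} [Fintype β] [DecidableEq β] [AddCommGroup A]
    (p : A →+ ZMod 2) (e : A) (G : (β → ZMod 2) → (X → ℝ) → (X → ℝ))
    (s : β → ZMod 2) (u : Fin d → Bt β d) (F : X → (β ⊕ Fin d → A) → ℝ)
    (x : X) (z : β ⊕ Fin d → A) : ℝ :=
  G (sg p s z) (fun x' => F x' z) x + Rop e u (F x) z

/-- the new adjoint operator -/
noncomputable def Gn' {β A X : Type} {d : ℕ} [Fintype β] [DecidableEq β] [AddCommGroup A]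
    (p : A →+ ZMod 2) (e : A) (G' : (β → ZMod 2) → (X → ℝ) → (X → ℝ))
    (s : β → ZMod 2) (u : Fin d → Bt β d) (F : X → (β ⊕ Fin d → A) → ℝ)
    (x : X) (z : β ⊕ Fin d → A) : ℝ :=
  G' (sg p s z) (fun x' => F x' z) x + Rop' e u (F x) z

/-- distance of the frequencies of `tau (u v)`, `v : Fin d`, from the uniform distribution -/
noncomputable def errf {β : Type} {d : ℕ} [Fintype β] [DecidableEq β]
    (u : Fin d → Bt β d) : ℝ :=
  ∑ ρ : β → ZMod 2, |(𝔼 v : Fin d, if tau (u v) = ρ then (1 : ℝ) else 0)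
    - 1 / (Fintype.card (β → ZMod 2) : ℝ)|

/-- `f` vanishes on one of the ends of every move -/
def Ind {ι A : Type} [AddCommGroup A] (V : ι → (ι → ZMod 2) → ι → ℤ) (e : A) (p : A →+ ZMod 2)
    (f : (ι → A) → ℝ) : Prop :=
  ∀ x ℓ, f x * f (sh e (V ℓ (fun i => p (x i))) x) = 0

/-- witnesses -/
structure Wit {ι β A : Type} [Fintype ι] [DecidableEq ι] [Fintype β] [DecidableEq β]
    [AddCommGroup A] [Fintype A]
    (V : (β → ZMod 2) → ι → (ι → ZMod 2) → ι → ℤ) (k : ℕ) (ε : ℝ) (b : (β → ZMod 2) → ℝ)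
    (e : A) (p : A →+ ZMod 2)
    (G G' : (β → ZMod 2) → ((ι → A) → ℝ) → ((ι → A) → ℝ)) : Prop where
  adj : ∀ ω f g, 𝔼 x, G ω f x * g x = 𝔼 x, f x * G' ω g x
  A : ∀ ω f, U01 f → Ind (V ω) e p f →
    𝔼 x, f x * G ω f x ≤ -(k : ℝ) * (𝔼 x, f x) ^ 2 + k * ε
  B : ∀ ω f, U01 f → 𝔼 x, (G ω f x) ^ 2 ≤ b ω
  C : ∀ f, U01 f → 𝔼 ω, 𝔼 x, (G' ω f x) ^ 2 ≤ ε

/-- the analytic property carried through the induction -/
def Good {ι β : Type} [Fintype ι] [DecidableEq ι] [Fintype β] [DecidableEq β]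
    (V : (β → ZMod 2) → ι → (ι → ZMod 2) → ι → ℤ) (k : ℕ) (ε : ℝ) : Prop :=
  ∃ b : (β → ZMod 2) → ℝ, 𝔼 ω, b ω ≤ 2 * k ∧
    ∀ (A : Type) [AddCommGroup A] [Fintype A] (e : A) (p : A →+ ZMod 2), p e = 1 →
      ∃ G G' : (β → ZMod 2) → ((ι → A) → ℝ) → ((ι → A) → ℝ), Wit V k ε b e p G G'

/-- structural validity of a system of moves -/
structure Valid {ι Ω : Type} (rk : ι → ℕ) (V : Ω → ι → (ι → ZMod 2) → ι → ℤ) : Prop where
  inj : Function.Injective rk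
  self : ∀ ω ℓ q, V ω ℓ q ℓ = 1
  top : ∀ ω ℓ q ℓ', rk ℓ < rk ℓ' → V ω ℓ q ℓ' = 0
  abs : ∀ ω ℓ q ℓ', |V ω ℓ q ℓ'| ≤ 1
  dep : ∀ ω ℓ q q', (∀ ℓ', rk ℓ < rk ℓ' → q ℓ' = q' ℓ') → V ω ℓ q = V ω ℓ q'

/-- new index bits -/
abbrev IB (β : Type) (d : ℕ) : Type := β ⊕ (Fin d × ((β ⊕ Fin d) × Bool))

/-- the new system of moves -/
def Vnew {ι β : Type} [DecidableEq β] (V : (β → ZMod 2) → ι → (ι → ZMod 2) → ι → ℤ) (d : ℕ) :
    (IB β d → ZMod 2) → ι ⊕ (β ⊕ Fin d) → (ι ⊕ (β ⊕ Fin d) → ZMod 2) → ι ⊕ (β ⊕ Fin d) → ℤ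
  | ω, Sum.inl ℓ, q => Sum.elim
      (V (fun b => ω (Sum.inl b) + q (Sum.inr (Sum.inl b))) ℓ (fun i => q (Sum.inl i)))
      (fun _ => 0)
  | _, Sum.inr (Sum.inl b), _ => Sum.elim (fun _ => 0)
      (Sum.elim (fun b' => if b' = b then 1 else 0) (fun _ => 0))
  | ω, Sum.inr (Sum.inr v), _ => Sum.elim (fun _ => 0) (wv (fun t => ω (Sum.inr (v, t))) v)

/-- the new ranks -/
noncomputable def rknew {ι β : Type} [Fintype ι] [Fintype β] (rk : ι → ℕ) (d : ℕ) :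
    ι ⊕ (β ⊕ Fin d) → ℕ
  | Sum.inl ℓ => rk ℓ
  | Sum.inr (Sum.inl b) => (∑ ℓ, rk ℓ) + 1 + (Fintype.equivFin β b : ℕ)
  | Sum.inr (Sum.inr v) => (∑ ℓ, rk ℓ) + 1 + Fintype.card β + (v : ℕ)

end R3A
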