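import Pool.Agent.Helper850.RA.Defs

set_option autoImplicit false

namespace R3A
open Finset BigOperators


theorem expect_eval {T : Type} [Fintype T] [Nonempty T] {d : ℕ} (v : Fin d) (H : T → ℝ) :
    𝔼 u : Fin d → T, H (u v) = 𝔼 a, H a := by
  classical
  calc 𝔼 u : Fin d → T, H (u v) = 𝔼 p : T × ({j // j ≠ v} → T), H p.1 :=
        Fintype.expect_equiv (Equiv.funSplitAt v T) _ _ (fun u => by simp)
    _ = 𝔼 a, 𝔼 _b : ({j // j ≠ v} → T), H a := by
        rw [← Finset.univ_product_univ, Finset.expect_product]
    _ = 𝔼 a, H a := by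
        apply Finset.expect_congr rfl
        intro a _
        exact Finset.expect_const Finset.univ_nonempty _

end R3A
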