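import Pool.Agent.Helper850.RA.Defs

set_option autoImplicit false

namespace R3A
open Finset BigOperators


/-- splitting the bits -/
def bt_split_equiv (β : Type) (d : ℕ) :
    Bt β d ≃ (β ⊕ Fin d → ZMod 2) × (β ⊕ Fin d → ZMod 2) where
  toFun a := (fun c => a (c, false), fun c => a (c, true))
  invFun q := fun c => if c.2 then q.2 c.1 else q.1 c.1
  left_inv a := by
    funext c
    rcases c with ⟨c, b⟩
    cases b <;> rfl
  right_inv q := rfl

theorem bt_split {β : Type} {d : ℕ} [Fintype β] [DecidableEq β]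
    (F : (β ⊕ Fin d → ZMod 2) → (β ⊕ Fin d → ZMod 2) → ℝ) :
    𝔼 a : Bt β d, F (fun c => a (c, false)) (fun c => a (c, true)) = 𝔼 a0, 𝔼 a1, F a0 a1 := by
  refine (Fintype.expect_equiv (bt_split_equiv β d)
    (fun a : Bt β d => F (fun c => a (c, false)) (fun c => a (c, true)))
    (fun q => F q.1 q.2) (fun a => rfl)).trans ?_
  exact Finset.expect_product' Finset.univ Finset.univ F

end R3A
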