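import Pool.Agent.Helper850.RA.Defs

set_option autoImplicit false

namespace R3A
open Finset BigOperators


theorem expect_sh {K A : Type} [Fintype K] [DecidableEq K] [AddCommGroup A] [Fintype A]
    (e : A) (w : K → ℤ) (f : (K → A) → ℝ) : 𝔼 x, f (sh e w x) = 𝔼 x, f x :=
  Fintype.expect_equiv (Equiv.addRight (fun i => w i • e)) _ _ (fun _ => rfl)

end R3A
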