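import Pool.Agent.Helper850.RA.Defs
import Pool.Agent.Helper850.RA.P_expect_sh
import Pool.Agent.Helper850.RA.P_bt_split

set_option autoImplicit false

namespace R3A
open Finset BigOperators


theorem teles1_wv {β : Type} {d : ℕ} (a : Bt β d) (v : Fin d) :
    wv a v = unitv v + low (v : ℕ) (fun c => a (c, false)) - low (v : ℕ) (fun c => a (c, true)) := by
  funext c
  rcases c with b | l
  · simp [wv, unitv, low, dbit]
  · simp only [wv, unitv, low, dbit, Pi.add_apply, Pi.sub_apply]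
    by_cases h : l < v
    · have h' : (l : ℕ) < (v : ℕ) := h
      rw [if_pos h, if_pos h', if_pos h', if_neg h.ne]
      ring
    · have h' : ¬ (l : ℕ) < (v : ℕ) := h
      rw [if_neg h, if_neg h', if_neg h']
      ring

theorem teles1_sh {K A : Type} [AddCommGroup A] (e : A) (U L0 L1 : K → ℤ) (z : K → A) :
    sh e (U + L0 - L1) (sh e L1 z) = sh e L0 (sh e U z) := by
  funext i
  simp only [sh, Pi.add_apply, Pi.sub_apply, add_smul, sub_smul]
  abel

theorem teles1 {β A : Type} {d : ℕ} [Fintype β] [DecidableEq β] [AddCommGroup A]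
    [Fintype A] (e : A) (f : (β ⊕ Fin d → A) → ℝ) (v : Fin d) :
    𝔼 a : Bt β d, 𝔼 z, f z * f (sh e (wv a v) z) =
      𝔼 z, Bav e v f z * Bav e v f (sh e (unitv v) z) := by
  have h1 : 𝔼 a : Bt β d, 𝔼 z, f z * f (sh e (wv a v) z) =
      𝔼 a0 : β ⊕ Fin d → ZMod 2, 𝔼 a1 : β ⊕ Fin d → ZMod 2,
        𝔼 z, f z * f (sh e (unitv v + low (v : ℕ) a0 - low (v : ℕ) a1) z) := by
    rw [← bt_split (fun a0 a1 => 𝔼 z, f z * f (sh e (unitv v + low (v : ℕ) a0 -
      low (v : ℕ) a1) z))]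
    refine Finset.expect_congr rfl fun a _ => ?_
    rw [teles1_wv]
  have h2 : ∀ a0 a1 : β ⊕ Fin d → ZMod 2,
      𝔼 z, f z * f (sh e (unitv v + low (v : ℕ) a0 - low (v : ℕ) a1) z) =
      𝔼 z, f (sh e (low (v : ℕ) a1) z) * f (sh e (low (v : ℕ) a0) (sh e (unitv v) z)) := by
    intro a0 a1
    rw [← expect_sh e (low (v : ℕ) a1) (fun z => f z * f (sh e (unitv v + low (v : ℕ) a0 -
      low (v : ℕ) a1) z))]
    refine Finset.expect_congr rfl fun z _ => ?_
    rw [teles1_sh]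
  rw [h1]
  simp only [h2]
  have h3 : ∀ z, Bav e v f z * Bav e v f (sh e (unitv v) z) =
      𝔼 a1 : β ⊕ Fin d → ZMod 2, 𝔼 a0 : β ⊕ Fin d → ZMod 2,
        f (sh e (low (v : ℕ) a1) z) * f (sh e (low (v : ℕ) a0) (sh e (unitv v) z)) := by
    intro z
    unfold Bav
    rw [Finset.expect_mul_expect]
  simp only [h3]
  rw [Finset.expect_comm]
  rw [Finset.expect_comm (s := (Finset.univ : Finset (β ⊕ Fin d → A)))]
  refine Finset.expect_congr rfl fun a1 _ => ?_
  rw [Finset.expect_comm]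

end R3A
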