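import Pool.Agent.Helper850.RA.Defs

set_option autoImplicit false

namespace R3A
open Finset BigOperators


theorem teles2a {β A : Type} {d : ℕ} [Fintype β] [DecidableEq β] [AddCommGroup A]
    (e : A) (f : (β ⊕ Fin d → A) → ℝ) (v : Fin d) (z : β ⊕ Fin d → A) :
    Bav e ((v : ℕ) + 1) f z = (Bav e v f z + Bav e v f (sh e (unitv v) z)) / 2 := by
  have hz : ∀ t : ZMod 2, t = 0 ∨ t = 1 := by decide
  have L1 : ∀ a : β ⊕ Fin d → ZMod 2, a (Sum.inr v) = 0 → low ((v : ℕ) + 1) a = low (v : ℕ) a := by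
    intro a ha
    funext i
    cases i with
    | inl b => rfl
    | inr l =>
      show (if (l : ℕ) < (v : ℕ) + 1 then ((a (Sum.inr l)).val : ℤ) else 0) =
        (if (l : ℕ) < (v : ℕ) then ((a (Sum.inr l)).val : ℤ) else 0)
      by_cases h : l = v
      · subst h
        rw [if_pos (Nat.lt_succ_self _), if_neg (lt_irrefl _), ha]
        simp
      · have h' : (l : ℕ) ≠ (v : ℕ) := fun h2 => h (Fin.ext h2)
        by_cases h3 : (l : ℕ) < (v : ℕ)
        · rw [if_pos h3, if_pos (by omega)]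
        · rw [if_neg h3, if_neg (by omega)]
  have L2 : ∀ a : β ⊕ Fin d → ZMod 2, a (Sum.inr v) = 1 →
      low ((v : ℕ) + 1) a = fun i => low (v : ℕ) a i + unitv v i := by
    intro a ha
    funext i
    cases i with
    | inl b =>
      show ((a (Sum.inl b)).val : ℤ) = ((a (Sum.inl b)).val : ℤ) + 0
      rw [add_zero]
    | inr l =>
      show (if (l : ℕ) < (v : ℕ) + 1 then ((a (Sum.inr l)).val : ℤ) else 0) =
        (if (l : ℕ) < (v : ℕ) then ((a (Sum.inr l)).val : ℤ) else 0) + (if l = v then 1 else 0)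
      by_cases h : l = v
      · subst h
        rw [if_pos (Nat.lt_succ_self _), if_neg (lt_irrefl _), ha, if_pos rfl]
        rfl
      · have h' : (l : ℕ) ≠ (v : ℕ) := fun h2 => h (Fin.ext h2)
        rw [if_neg h, add_zero]
        by_cases h3 : (l : ℕ) < (v : ℕ)
        · rw [if_pos h3, if_pos (by omega)]
        · rw [if_neg h3, if_neg (by omega)]
  have L3 : ∀ a : β ⊕ Fin d → ZMod 2, low (v : ℕ) (a + Pi.single (Sum.inr v) 1) = low (v : ℕ) a := by
    intro a
    funext i
    cases i with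
    | inl b =>
      show (((a + Pi.single (Sum.inr v) 1 : β ⊕ Fin d → ZMod 2) (Sum.inl b)).val : ℤ) = _
      rw [Pi.add_apply, Pi.single_eq_of_ne (by simp), add_zero]
      rfl
    | inr l =>
      show (if (l : ℕ) < (v : ℕ) then
        (((a + Pi.single (Sum.inr v) 1 : β ⊕ Fin d → ZMod 2) (Sum.inr l)).val : ℤ) else 0) =
        (if (l : ℕ) < (v : ℕ) then ((a (Sum.inr l)).val : ℤ) else 0)
      by_cases h3 : (l : ℕ) < (v : ℕ)
      · have h : l ≠ v := fun h => by rw [h] at h3; exact lt_irrefl _ h3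
        rw [if_pos h3, if_pos h3, Pi.add_apply, Pi.single_eq_of_ne (by simpa using h), add_zero]
      · rw [if_neg h3, if_neg h3]
  have L4 : ∀ (w u : β ⊕ Fin d → ℤ), sh e (fun i => w i + u i) z = sh e w (sh e u z) := by
    intro w u
    funext i
    show z i + (w i + u i) • e = z i + u i • e + w i • e
    rw [add_smul, add_assoc, add_comm (w i • e)]
  have hval : ∀ a : β ⊕ Fin d → ZMod 2,
      (a + Pi.single (Sum.inr v) 1 : β ⊕ Fin d → ZMod 2) (Sum.inr v) = a (Sum.inr v) + 1 := by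
    intro a
    rw [Pi.add_apply, Pi.single_eq_same]
  have key : ∀ a : β ⊕ Fin d → ZMod 2, f (sh e (low ((v : ℕ) + 1) a) z) +
      f (sh e (low ((v : ℕ) + 1) (a + Pi.single (Sum.inr v) 1)) z) =
      f (sh e (low (v : ℕ) a) z) + f (sh e (low (v : ℕ) a) (sh e (unitv v) z)) := by
    intro a
    rcases hz (a (Sum.inr v)) with h | h
    · rw [L1 a h, L2 (a + Pi.single (Sum.inr v) 1) (by rw [hval, h]; rfl), L4, L3]
    · rw [L2 a h, L1 (a + Pi.single (Sum.inr v) 1) (by rw [hval, h]; rfl), L4, L3, add_comm]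
  have hinv : 𝔼 a : β ⊕ Fin d → ZMod 2, f (sh e (low ((v : ℕ) + 1) (a + Pi.single (Sum.inr v) 1)) z)
      = 𝔼 a : β ⊕ Fin d → ZMod 2, f (sh e (low ((v : ℕ) + 1) a) z) :=
    Fintype.expect_equiv (Equiv.addRight (Pi.single (Sum.inr v) 1)) _ _ (fun a => rfl)
  unfold Bav
  have h5 := Finset.expect_congr (rfl : (Finset.univ : Finset (β ⊕ Fin d → ZMod 2)) = Finset.univ)
    (fun a _ => key a)
  rw [Finset.expect_add_distrib, Finset.expect_add_distrib, hinv] at h5
  linarith

end R3A
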