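import Pool.Agent.Helper850.RA.Defs
import Pool.Agent.Helper850.RA.P_expect_sh
import Pool.Agent.Helper850.RA.P_teles2a

set_option autoImplicit false

namespace R3A
open Finset BigOperators


theorem teles2 {β A : Type} {d : ℕ} [Fintype β] [DecidableEq β] [AddCommGroup A]
    [Fintype A] (e : A) (f : (β ⊕ Fin d → A) → ℝ) (v : Fin d) :
    𝔼 z, (Bav e ((v : ℕ) + 1) f z) ^ 2 =
      ((𝔼 z, (Bav e v f z) ^ 2) + 𝔼 z, Bav e v f z * Bav e v f (sh e (unitv v) z)) / 2 := by
  have h1 : ∀ z, (Bav e ((v : ℕ) + 1) f z) ^ 2 =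
      (1 / 4) * (Bav e v f z) ^ 2 + (1 / 4) * (Bav e v f (sh e (unitv v) z)) ^ 2 +
        (1 / 2) * (Bav e v f z * Bav e v f (sh e (unitv v) z)) := by
    intro z
    rw [teles2a]
    ring
  simp only [h1]
  rw [Finset.expect_add_distrib, Finset.expect_add_distrib, ← Finset.mul_expect,
    ← Finset.mul_expect, ← Finset.mul_expect,
    expect_sh e (unitv v) (fun z => (Bav e v f z) ^ 2)]
  ring

end R3A
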