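import Pool.Agent.Helper850.RA.Defs
import Pool.Agent.Helper850.RA.P_expect_sh

set_option autoImplicit false

namespace R3A
open Finset BigOperators


theorem teles3 {β A : Type} {d : ℕ} [Fintype β] [DecidableEq β] [AddCommGroup A]
    [Fintype A] (e : A) (f : (β ⊕ Fin d → A) → ℝ) (hf : U01 f) (v : ℕ) :
    (𝔼 z, f z) ^ 2 ≤ 𝔼 z, (Bav e v f z) ^ 2 ∧ 𝔼 z, (Bav e v f z) ^ 2 ≤ 1 := by
  classical
  have hmean : 𝔼 z, Bav e v f z = 𝔼 z, f z := by
    unfold Bav
    rw [Finset.expect_comm]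
    have : ∀ a : β ⊕ Fin d → ZMod 2, 𝔼 z, f (sh e (low v a) z) = 𝔼 z, f z :=
      fun a => expect_sh e (low v a) f
    simp_rw [this]
    exact Finset.expect_const Finset.univ_nonempty _
  have hB0 : ∀ z, 0 ≤ Bav e v f z := fun z => Finset.expect_nonneg (fun a _ => (hf _).1)
  have hB1 : ∀ z, Bav e v f z ≤ 1 := fun z => by
    unfold Bav
    exact Finset.expect_le Finset.univ_nonempty (fun a _ => (hf _).2)
  constructor
  · rw [← hmean]
    set m := 𝔼 z, Bav e v f z with hm
    have h0 : 0 ≤ 𝔼 z, (Bav e v f z - m) ^ 2 := Finset.expect_nonneg (fun z _ => sq_nonneg _)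
    have h1 : 𝔼 z, (Bav e v f z - m) ^ 2 = 𝔼 z, (Bav e v f z) ^ 2 - m ^ 2 := by
      have : ∀ z, (Bav e v f z - m) ^ 2 = (Bav e v f z) ^ 2 - (2 * m) * Bav e v f z + m ^ 2 := by
        intro z; ring
      simp_rw [this]
      rw [Finset.expect_add_distrib, Finset.expect_sub_distrib, ← Finset.mul_expect,
        Finset.expect_const Finset.univ_nonempty, ← hm]
      ring
    linarith
  · apply Finset.expect_le Finset.univ_nonempty
    intro z _
    have := hB0 z
    have := hB1 z
    nlinarith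

end R3A
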