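import Pool.Agent.Helper850.RA.Defs
import Pool.Agent.Helper850.RA.P_expect_eval
import Pool.Agent.Helper850.RA.P_teles1
import Pool.Agent.Helper850.RA.P_teles2
import Pool.Agent.Helper850.RA.P_teles3

set_option autoImplicit false

namespace R3A
open Finset BigOperators


theorem teles {β A : Type} {d : ℕ} (hd : 0 < d) [Fintype β] [DecidableEq β] [AddCommGroup A]
    [Fintype A] (e : A) (f : (β ⊕ Fin d → A) → ℝ) (hf : U01 f) :
    (𝔼 z, f z) ^ 2 - 1 / (d : ℝ) ≤ 𝔼 u : Fin d → Bt β d, 𝔼 z, f z * Tu e u f z := by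
  have h1 : 𝔼 u : Fin d → Bt β d, 𝔼 z, f z * Tu e u f z =
      𝔼 v : Fin d, 𝔼 z, Bav e v f z * Bav e v f (sh e (unitv v) z) := by
    have h2 : ∀ u : Fin d → Bt β d, 𝔼 z, f z * Tu e u f z =
        𝔼 v : Fin d, 𝔼 z, f z * f (sh e (wv (u v) v) z) := by
      intro u
      unfold Tu
      simp only [Finset.mul_expect]
      rw [Finset.expect_comm]
    rw [Finset.expect_congr rfl fun u _ => h2 u, Finset.expect_comm]
    refine Finset.expect_congr rfl fun v _ => ?_
    rw [expect_eval v (fun a => 𝔼 z, f z * f (sh e (wv a v) z)), teles1]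
  rw [h1]
  set a : ℕ → ℝ := fun n => 𝔼 z, (Bav e n f z) ^ 2 with ha
  have hQ : ∀ v : Fin d, 𝔼 z, Bav e v f z * Bav e v f (sh e (unitv v) z) =
      2 * a ((v : ℕ) + 1) - a v := by
    intro v
    have h2 := teles2 e f v
    have h3 : a ((v : ℕ) + 1) = (a v + 𝔼 z, Bav e v f z * Bav e v f (sh e (unitv v) z)) / 2 := h2
    rw [h3]
    ring
  rw [Finset.expect_congr rfl fun v _ => hQ v]
  have hd' : (0 : ℝ) < d := by exact_mod_cast hd
  have hmu : ∀ n, (𝔼 z, f z) ^ 2 ≤ a n := fun n => (teles3 e f hf n).1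
  have ha0 : a 0 ≤ 1 := (teles3 e f hf 0).2
  have hsum : ∀ n : ℕ, (n : ℝ) * (𝔼 z, f z) ^ 2 - 1 + a n ≤
      ∑ v ∈ Finset.range n, (2 * a (v + 1) - a v) := by
    intro n
    induction n with
    | zero => simp; linarith
    | succ n ih =>
      rw [Finset.sum_range_succ]
      push_cast
      have := hmu (n + 1)
      linarith
  have h5 : 𝔼 v : Fin d, (2 * a ((v : ℕ) + 1) - a v) =
      (∑ v ∈ Finset.range d, (2 * a (v + 1) - a v)) / d := by
    rw [Fintype.expect_eq_sum_div_card, Fintype.card_fin, Finset.sum_range]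
  rw [h5, le_div_iff₀ hd', sub_mul, one_div, inv_mul_cancel₀ hd'.ne']
  have h6 := hsum d
  have h7 : 0 ≤ a d := le_trans (sq_nonneg _) (hmu d)
  linarith

end R3A
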