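import Pool.Agent.Helper850.RA.Defs
import Pool.Agent.Helper850.RA.P_teles

set_option autoImplicit false

namespace R3A
open Finset BigOperators


theorem jens_258 {ι : Type} [Fintype ι] [Nonempty ι] (f : ι → ℝ) :
    (𝔼 i, f i) ^ 2 ≤ 𝔼 i, (f i) ^ 2 := by
  rw [Fintype.expect_eq_sum_div_card, Fintype.expect_eq_sum_div_card]
  have hc : (0 : ℝ) < Fintype.card ι := by exact_mod_cast Fintype.card_pos
  have h := sq_sum_le_card_mul_sum_sq (s := (Finset.univ : Finset ι)) (f := f)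
  rw [Finset.card_univ] at h
  rw [div_pow, div_le_div_iff₀ (by positivity) hc]
  calc (∑ i, f i) ^ 2 * (Fintype.card ι : ℝ) ≤ ((Fintype.card ι : ℝ) * ∑ i, f i ^ 2) * (Fintype.card ι : ℝ) :=
        mul_le_mul_of_nonneg_right h hc.le
    _ = _ := by ring

theorem A_new {β A X : Type} {d : ℕ} (hd : 0 < d) [Fintype β] [DecidableEq β] [AddCommGroup A]
    [Fintype A] [Fintype X] [Nonempty X] (e : A) (p : A →+ ZMod 2)
    (G : (β → ZMod 2) → (X → ℝ) → (X → ℝ))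
    (s : β → ZMod 2) (u : Fin d → Bt β d) (F : X → (β ⊕ Fin d → A) → ℝ)
    (hF : ∀ x, U01 (F x)) (k : ℕ) (ε : ℝ)
    (hA : ∀ z, 𝔼 x, F x z * G (sg p s z) (fun x' => F x' z) x ≤
      -(k : ℝ) * (𝔼 x, F x z) ^ 2 + k * ε)
    (hI : ∀ v x z, F x z * F x (sh e (wv (u v) v) z) = 0) :
    𝔼 x, 𝔼 z, F x z * Gn p e G s u F x z ≤
      -((k : ℝ) + 1) * (𝔼 x, 𝔼 z, F x z) ^ 2 + (k * ε + 1 / (d : ℝ)) := by
  classical
  have h1 : ∀ x z, F x z * Gn p e G s u F x z =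
      F x z * G (sg p s z) (fun x' => F x' z) x - 𝔼 u' : Fin d → Bt β d, F x z * Tu e u' (F x) z := by
    intro x z
    have h2 : F x z * Tu e u (F x) z = 0 := by
      unfold Tu
      rw [Finset.mul_expect]
      simp only [hI]
      simp
    unfold Gn Rop
    rw [← Finset.mul_expect]
    linear_combination h2
  have h3 : 𝔼 x, 𝔼 z, F x z * Gn p e G s u F x z =
      (𝔼 z, 𝔼 x, F x z * G (sg p s z) (fun x' => F x' z) x) -
      𝔼 x, 𝔼 u' : Fin d → Bt β d, 𝔼 z, F x z * Tu e u' (F x) z := by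
    simp only [h1]
    simp only [Finset.expect_sub_distrib]
    congr 1
    · exact Finset.expect_comm _ _ _
    · apply Finset.expect_congr rfl
      intro x _
      exact Finset.expect_comm _ _ _
  have h4 : 𝔼 z, 𝔼 x, F x z * G (sg p s z) (fun x' => F x' z) x ≤
      -(k : ℝ) * (𝔼 x, 𝔼 z, F x z) ^ 2 + k * ε := by
    calc 𝔼 z, 𝔼 x, F x z * G (sg p s z) (fun x' => F x' z) x
        ≤ 𝔼 z : β ⊕ Fin d → A, (-(k : ℝ) * (𝔼 x, F x z) ^ 2 + k * ε) :=
          Finset.expect_le_expect (fun z _ => hA z)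
      _ = -(k : ℝ) * (𝔼 z : β ⊕ Fin d → A, (𝔼 x, F x z) ^ 2) + k * ε := by
          rw [Finset.expect_add_distrib, ← Finset.mul_expect, Finset.expect_const Finset.univ_nonempty]
      _ ≤ _ := by
          have h5 := jens_258 (fun z : β ⊕ Fin d → A => 𝔼 x, F x z)
          have h6 : 𝔼 z : β ⊕ Fin d → A, 𝔼 x, F x z = 𝔼 x, 𝔼 z, F x z := Finset.expect_comm _ _ _
          rw [h6] at h5
          have h7 := mul_le_mul_of_nonneg_left h5 (Nat.cast_nonneg (α := ℝ) k)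
          linarith
  have h5 : (𝔼 x, 𝔼 z, F x z) ^ 2 - 1 / (d : ℝ) ≤
      𝔼 x, 𝔼 u' : Fin d → Bt β d, 𝔼 z, F x z * Tu e u' (F x) z := by
    calc (𝔼 x, 𝔼 z, F x z) ^ 2 - 1 / (d : ℝ) ≤ (𝔼 x, (𝔼 z, F x z) ^ 2) - 1 / (d : ℝ) := by
          have := jens_258 (fun x => 𝔼 z, F x z)
          linarith
      _ = 𝔼 x, ((𝔼 z, F x z) ^ 2 - 1 / (d : ℝ)) := by
          rw [Finset.expect_sub_distrib, Finset.expect_const Finset.univ_nonempty]
      _ ≤ _ := Finset.expect_le_expect (fun x _ => teles hd e (F x) (hF x))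
  rw [h3]
  nlinarith [h4, h5]

end R3A
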