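import Pool.Agent.Helper850.RA.Defs

set_option autoImplicit false

namespace R3A
open Finset BigOperators


theorem sg_sub_aux (a b : ZMod 2) : -(dbit a b) • (1 : ZMod 2) = a - b := by
  revert a b
  unfold dbit
  decide

theorem sg_sub {β A : Type} {d : ℕ} [AddCommGroup A]
    (e : A) (p : A →+ ZMod 2) (he : p e = 1) (s : β → ZMod 2) (a : Bt β d) (v : Fin d)
    (z : β ⊕ Fin d → A) :
    sg p s (sh e (-(wv a v)) z) = sg p s z + tau a := by
  funext b
  show s b + p (z (Sum.inl b) + (-(wv a v)) (Sum.inl b) • e) =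
    (s b + p (z (Sum.inl b))) + (a (Sum.inl b, false) - a (Sum.inl b, true))
  rw [map_add, map_zsmul, he]
  have h : (-(wv a v)) (Sum.inl b) • (1 : ZMod 2) = a (Sum.inl b, false) - a (Sum.inl b, true) :=
    sg_sub_aux _ _
  rw [h]
  ring

end R3A
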