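import Pool.Agent.Helper850.RA.Defs
import Pool.Agent.Helper850.RA.P_expect_sh
import Pool.Agent.Helper850.RA.P_sg_sub

set_option autoImplicit false

namespace R3A
open Finset BigOperators


theorem cross1 {β A X : Type} {d : ℕ} [Fintype β] [DecidableEq β] [AddCommGroup A]
    [Fintype A] [Fintype X] (e : A) (p : A →+ ZMod 2) (he : p e = 1)
    (G G' : (β → ZMod 2) → (X → ℝ) → (X → ℝ))
    (adj : ∀ ω f g, 𝔼 x, G ω f x * g x = 𝔼 x, f x * G' ω g x)
    (s : β → ZMod 2) (a : Bt β d) (v : Fin d) (F : X → (β ⊕ Fin d → A) → ℝ)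
    (hF : ∀ x, U01 (F x)) :
    |𝔼 x, 𝔼 z, G (sg p s z) (fun x' => F x' z) x * F x (sh e (wv a v) z)| ≤
      𝔼 z, 𝔼 x, |G' (sg p s z + tau a) (fun x' => F x' z) x| := by
  rw [Finset.expect_comm]
  have h1 : ∀ z : β ⊕ Fin d → A,
      𝔼 x, G (sg p s z) (fun x' => F x' z) x * F x (sh e (wv a v) z) =
      𝔼 x, F x z * G' (sg p s z) (fun x' => F x' (sh e (wv a v) z)) x := by
    intro z
    exact adj (sg p s z) (fun x' => F x' z) (fun x' => F x' (sh e (wv a v) z))
  rw [Finset.expect_congr rfl (fun z _ => h1 z)]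
  have h2 : |𝔼 z : β ⊕ Fin d → A, 𝔼 x, F x z * G' (sg p s z) (fun x' => F x' (sh e (wv a v) z)) x| ≤
      𝔼 z : β ⊕ Fin d → A, 𝔼 x, |G' (sg p s z) (fun x' => F x' (sh e (wv a v) z)) x| := by
    refine (Finset.abs_expect_le _ _).trans ?_
    refine Finset.expect_le_expect fun z _ => ?_
    refine (Finset.abs_expect_le _ _).trans ?_
    refine Finset.expect_le_expect fun x _ => ?_
    rw [abs_mul, abs_of_nonneg (hF x z).1]
    exact mul_le_of_le_one_left (abs_nonneg _) (hF x z).2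
  refine h2.trans (le_of_eq ?_)
  rw [← expect_sh e (-(wv a v))
    (fun z : β ⊕ Fin d → A => 𝔼 x, |G' (sg p s z) (fun x' => F x' (sh e (wv a v) z)) x|)]
  refine Finset.expect_congr rfl fun z _ => ?_
  have h3 : sh e (wv a v) (sh e (-(wv a v)) z) = z := by
    funext i
    simp [sh]
  simp only [h3, sg_sub e p he s a v z]

end R3A
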