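import Pool.Agent.Helper850.RA.Defs

set_option autoImplicit false

namespace R3A
open Finset BigOperators


theorem cross2 {β : Type} {d : ℕ} [Fintype β] [DecidableEq β]
    (D : (β → ZMod 2) → ℝ) (δ : ℝ) (hδ : 0 ≤ δ) (hD0 : ∀ ρ, 0 ≤ D ρ)
    (hD : 𝔼 ρ, (D ρ) ^ 2 ≤ δ ^ 2) (σ : β → ZMod 2) (u : Fin d → Bt β d) :
    𝔼 v, D (σ + tau (u v)) ≤ δ + δ * (Fintype.card (β → ZMod 2) : ℝ) * errf u := by
  classical
  set N : ℝ := (Fintype.card (β → ZMod 2) : ℝ) with hN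
  have hN1 : (1 : ℝ) ≤ N := by
    rw [hN]
    have : 1 ≤ Fintype.card (β → ZMod 2) := Fintype.card_pos
    exact_mod_cast this
  have hN0 : 0 < N := by linarith
  have hsum2 : ∑ ρ, (D ρ) ^ 2 ≤ N * δ ^ 2 := by
    have h1 : 𝔼 ρ, (D ρ) ^ 2 = (∑ ρ, (D ρ) ^ 2) / N := by
      rw [Fintype.expect_eq_sum_div_card]
    rw [h1, div_le_iff₀ hN0] at hD
    linarith
  have hDmax : ∀ ρ, D ρ ≤ δ * N := by
    intro ρ
    have h1 : (D ρ) ^ 2 ≤ ∑ ρ, (D ρ) ^ 2 :=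
      Finset.single_le_sum (f := fun ρ => (D ρ) ^ 2) (fun i _ => sq_nonneg _) (Finset.mem_univ ρ)
    have h2 : (D ρ) ^ 2 ≤ (δ * N) ^ 2 := by
      have h3 : N * δ ^ 2 ≤ (δ * N) ^ 2 := by
        have : (δ * N) ^ 2 = N * (N * δ ^ 2) := by ring
        rw [this]
        have h4 : 0 ≤ N * δ ^ 2 := by positivity
        nlinarith
      linarith
    exact (abs_le_of_sq_le_sq' h2 (by positivity)).2
  have hDsum : ∑ ρ, D ρ ≤ N * δ := by
    have h1 : (∑ ρ, D ρ) ^ 2 ≤ N * ∑ ρ, (D ρ) ^ 2 := by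
      have := sq_sum_le_card_mul_sum_sq (s := (Finset.univ : Finset (β → ZMod 2))) (f := D)
      simpa [hN] using this
    have h2 : (∑ ρ, D ρ) ^ 2 ≤ (N * δ) ^ 2 := by
      have h3 : N * ∑ ρ, (D ρ) ^ 2 ≤ N * (N * δ ^ 2) := mul_le_mul_of_nonneg_left hsum2 hN0.le
      have h4 : (N * δ) ^ 2 = N * (N * δ ^ 2) := by ring
      linarith
    exact (abs_le_of_sq_le_sq' h2 (by positivity)).2
  have hshift : ∑ ρ, D (σ + ρ) = ∑ ρ, D ρ :=
    Fintype.sum_equiv (Equiv.addLeft σ) _ _ (fun ρ => rfl)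
  have hL : 𝔼 v, D (σ + tau (u v)) =
      ∑ ρ : β → ZMod 2, (𝔼 v : Fin d, if tau (u v) = ρ then (1 : ℝ) else 0) * D (σ + ρ) := by
    have h1 : ∀ v : Fin d, D (σ + tau (u v)) =
        ∑ ρ : β → ZMod 2, (if tau (u v) = ρ then (1 : ℝ) else 0) * D (σ + ρ) := by
      intro v
      simp
    rw [Finset.expect_congr rfl (fun v _ => h1 v), Finset.expect_sum_comm]
    refine Finset.sum_congr rfl (fun ρ _ => ?_)
    rw [Finset.expect_mul]
  rw [hL]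
  have hsplit : ∑ ρ : β → ZMod 2, (𝔼 v : Fin d, if tau (u v) = ρ then (1 : ℝ) else 0) * D (σ + ρ)
      = (1 / N) * ∑ ρ, D (σ + ρ) + ∑ ρ : β → ZMod 2,
        ((𝔼 v : Fin d, if tau (u v) = ρ then (1 : ℝ) else 0) - 1 / N) * D (σ + ρ) := by
    rw [Finset.mul_sum, ← Finset.sum_add_distrib]
    refine Finset.sum_congr rfl (fun ρ _ => ?_)
    ring
  rw [hsplit, hshift]
  refine add_le_add ?_ ?_
  · rw [one_div, inv_mul_le_iff₀ hN0]
    exact hDsum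
  · have h1 : ∀ ρ : β → ZMod 2,
        ((𝔼 v : Fin d, if tau (u v) = ρ then (1 : ℝ) else 0) - 1 / N) * D (σ + ρ) ≤
          |(𝔼 v : Fin d, if tau (u v) = ρ then (1 : ℝ) else 0) - 1 / N| * (δ * N) := by
      intro ρ
      calc _ ≤ |(𝔼 v : Fin d, if tau (u v) = ρ then (1 : ℝ) else 0) - 1 / N| * D (σ + ρ) :=
            mul_le_mul_of_nonneg_right (le_abs_self _) (hD0 _)
        _ ≤ _ := mul_le_mul_of_nonneg_left (hDmax _) (abs_nonneg _)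
    refine (Finset.sum_le_sum (fun ρ _ => h1 ρ)).trans ?_
    rw [← Finset.sum_mul, mul_comm]
    rfl

end R3A
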