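import Pool.Agent.Helper850.RA.Defs
import Pool.Agent.Helper850.RA.P_cross1
import Pool.Agent.Helper850.RA.P_cross2

set_option autoImplicit false

namespace R3A
open Finset BigOperators


theorem cross_aux_sq {X : Type} [Fintype X] (g : X → ℝ) : (𝔼 x, g x) ^ 2 ≤ 𝔼 x, (g x) ^ 2 := by
  rw [Fintype.expect_eq_sum_div_card, Fintype.expect_eq_sum_div_card]
  by_cases h : Fintype.card X = 0
  · simp [h]
  · have hc : (0:ℝ) < (Fintype.card X : ℝ) := by
      exact_mod_cast Nat.pos_of_ne_zero h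
    rw [div_pow, div_le_div_iff₀ (by positivity) hc]
    have h1 := sq_sum_le_card_mul_sum_sq (s := (Finset.univ : Finset X)) (f := g)
    rw [Finset.card_univ] at h1
    nlinarith

theorem cross {β A X : Type} {d : ℕ} [Fintype β] [DecidableEq β] [AddCommGroup A]
    [Fintype A] [Fintype X] (e : A) (p : A →+ ZMod 2) (he : p e = 1)
    (G G' : (β → ZMod 2) → (X → ℝ) → (X → ℝ))
    (adj : ∀ ω f g, 𝔼 x, G ω f x * g x = 𝔼 x, f x * G' ω g x) (δ : ℝ) (hδ : 0 ≤ δ)
    (hC : ∀ f : X → ℝ, U01 f → 𝔼 ω, 𝔼 x, (G' ω f x) ^ 2 ≤ δ ^ 2)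
    (s : β → ZMod 2) (u : Fin d → Bt β d) (F : X → (β ⊕ Fin d → A) → ℝ)
    (hF : ∀ x, U01 (F x)) :
    |𝔼 x, 𝔼 z, G (sg p s z) (fun x' => F x' z) x * Tu e u (F x) z| ≤
      δ + δ * (Fintype.card (β → ZMod 2) : ℝ) * errf u := by
  have h1 : 𝔼 x, 𝔼 z, G (sg p s z) (fun x' => F x' z) x * Tu e u (F x) z =
      𝔼 v : Fin d, 𝔼 x, 𝔼 z, G (sg p s z) (fun x' => F x' z) x * F x (sh e (wv (u v) v) z) := by
    unfold Tu
    simp only [Finset.mul_expect]
    refine Eq.trans ?_ (Finset.expect_comm _ _ _)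
    apply Finset.expect_congr rfl
    intro x _
    exact Finset.expect_comm _ _ _
  have h2 : |𝔼 v : Fin d, 𝔼 x, 𝔼 z, G (sg p s z) (fun x' => F x' z) x *
      F x (sh e (wv (u v) v) z)| ≤
      𝔼 v : Fin d, 𝔼 z, 𝔼 x, |G' (sg p s z + tau (u v)) (fun x' => F x' z) x| := by
    refine le_trans (Finset.abs_expect_le _ _) ?_
    apply Finset.expect_le_expect
    intro v _
    exact cross1 e p he G G' adj s (u v) v F hF
  have h3 : 𝔼 v : Fin d, 𝔼 z, 𝔼 x, |G' (sg p s z + tau (u v)) (fun x' => F x' z) x| =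
      𝔼 z, 𝔼 v : Fin d, 𝔼 x, |G' (sg p s z + tau (u v)) (fun x' => F x' z) x| :=
    Finset.expect_comm _ _ _
  have h4 : ∀ z : β ⊕ Fin d → A,
      𝔼 v : Fin d, 𝔼 x, |G' (sg p s z + tau (u v)) (fun x' => F x' z) x| ≤
        δ + δ * (Fintype.card (β → ZMod 2) : ℝ) * errf u := by
    intro z
    refine cross2 (fun ρ => 𝔼 x, |G' ρ (fun x' => F x' z) x|) δ hδ ?_ ?_ (sg p s z) u
    · intro ρ
      exact Finset.expect_nonneg (fun x _ => abs_nonneg _)
    · refine le_trans ?_ (hC (fun x' => F x' z) (fun x => hF x z))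
      apply Finset.expect_le_expect
      intro ρ _
      refine le_trans (cross_aux_sq _) ?_
      apply le_of_eq
      apply Finset.expect_congr rfl
      intro x _
      exact sq_abs _
  rw [h1]
  refine le_trans h2 ?_
  rw [h3]
  refine le_trans (Finset.expect_le_expect (fun z _ => h4 z)) ?_
  haveI : Nonempty (β ⊕ Fin d → A) := ⟨fun _ => 0⟩
  rw [Fintype.expect_const]

end R3A
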