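import Pool.Agent.Helper850.RA.Defs
import Pool.Agent.Helper850.RA.P_expect_sh

set_option autoImplicit false

namespace R3A
open Finset BigOperators


theorem expect_sg {β A : Type} {d : ℕ} [Fintype β] [DecidableEq β] [AddCommGroup A] [Fintype A]
    (e : A) (p : A →+ ZMod 2) (he : p e = 1) (s : β → ZMod 2) (F : (β → ZMod 2) → ℝ) :
    𝔼 z : β ⊕ Fin d → A, F (sg p s z) = 𝔼 ρ, F ρ := by
  have h1 : ∀ ρ : β → ZMod 2, 𝔼 z : β ⊕ Fin d → A, F (sg p s z) =
      𝔼 z : β ⊕ Fin d → A, F (sg p s z + ρ) := by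
    intro ρ
    let w : β ⊕ Fin d → ℤ := Sum.elim (fun b => ((ρ b).val : ℤ)) (fun _ => 0)
    rw [← expect_sh e w (fun z => F (sg p s z))]
    refine Finset.expect_congr rfl fun z _ => ?_
    congr 1
    funext b
    show s b + p (z (Sum.inl b) + ((ρ b).val : ℤ) • e) = (s b + p (z (Sum.inl b))) + ρ b
    rw [map_add, map_zsmul, he, zsmul_one, Int.cast_natCast, ZMod.natCast_zmod_val, add_assoc]
  calc 𝔼 z : β ⊕ Fin d → A, F (sg p s z)
      = 𝔼 _ρ : β → ZMod 2, 𝔼 z : β ⊕ Fin d → A, F (sg p s z) := by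
        rw [Finset.expect_const Finset.univ_nonempty]
    _ = 𝔼 ρ : β → ZMod 2, 𝔼 z : β ⊕ Fin d → A, F (sg p s z + ρ) :=
        Finset.expect_congr rfl fun ρ _ => h1 ρ
    _ = 𝔼 z : β ⊕ Fin d → A, 𝔼 ρ : β → ZMod 2, F (sg p s z + ρ) := Finset.expect_comm _ _ _
    _ = 𝔼 _z : β ⊕ Fin d → A, 𝔼 ρ : β → ZMod 2, F ρ := by
        refine Finset.expect_congr rfl fun z _ => ?_
        exact Fintype.expect_equiv (Equiv.addLeft (sg p s z)) _ _ (fun ρ => rfl)
    _ = 𝔼 ρ, F ρ := by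
        rw [Finset.expect_const Finset.univ_nonempty]

end R3A
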