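import Pool.Agent.Helper850.RA.Defs
import Pool.Agent.Helper850.RA.P_cross
import Pool.Agent.Helper850.RA.P_expect_sg

set_option autoImplicit false

namespace R3A
open Finset BigOperators

lemma Bn_Tu_mem {β A : Type} {d : ℕ} [AddCommGroup A] (e : A)
    (u : Fin d → Bt β d) (f : (β ⊕ Fin d → A) → ℝ) (hf : U01 f) (z : β ⊕ Fin d → A) :
    0 ≤ Tu e u f z ∧ Tu e u f z ≤ 1 := by
  unfold Tu
  constructor
  · exact Finset.expect_nonneg (fun v _ => (hf _).1)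
  · rcases Nat.eq_zero_or_pos d with hd | hd
    · subst hd
      simp
    · haveI : Nonempty (Fin d) := ⟨⟨0, hd⟩⟩
      calc 𝔼 v, f (sh e (wv (u v) v) z) ≤ 𝔼 _v : Fin d, (1:ℝ) :=
            Finset.expect_le_expect (fun v _ => (hf _).2)
        _ = 1 := by rw [Finset.expect_const Finset.univ_nonempty]

lemma Bn_expect_le_const {T : Type} [Fintype T] (f : T → ℝ) (c : ℝ) (hc : 0 ≤ c)
    (h : ∀ t, f t ≤ c) : 𝔼 t, f t ≤ c := by
  rcases isEmpty_or_nonempty T with hT | hT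
  · simpa using hc
  · calc 𝔼 t, f t ≤ 𝔼 _t : T, c := Finset.expect_le_expect (fun t _ => h t)
      _ = c := by rw [Finset.expect_const Finset.univ_nonempty]

lemma Bn_Rop_abs {β A : Type} {d : ℕ} [Fintype β] [DecidableEq β] [AddCommGroup A] (e : A)
    (u : Fin d → Bt β d) (f : (β ⊕ Fin d → A) → ℝ) (hf : U01 f) (z : β ⊕ Fin d → A) :
    (Rop e u f z) ^ 2 ≤ 1 := by
  have h1 := Bn_Tu_mem e u f hf z
  have h2 : 0 ≤ 𝔼 u' : Fin d → Bt β d, Tu e u' f z :=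
    Finset.expect_nonneg (fun u' _ => (Bn_Tu_mem e u' f hf z).1)
  have h3 : 𝔼 u' : Fin d → Bt β d, Tu e u' f z ≤ 1 :=
    Bn_expect_le_const _ 1 zero_le_one (fun u' => (Bn_Tu_mem e u' f hf z).2)
  have h4 : |Rop e u f z| ≤ 1 := by
    unfold Rop
    rw [abs_le]
    constructor <;> linarith [h1.1, h1.2]
  have := sq_abs (Rop e u f z)
  nlinarith [abs_nonneg (Rop e u f z)]

theorem B_new {β A X : Type} {d : ℕ} [Fintype β] [DecidableEq β] [AddCommGroup A]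
    [Fintype A] [Fintype X] (e : A) (p : A →+ ZMod 2) (he : p e = 1)
    (G G' : (β → ZMod 2) → (X → ℝ) → (X → ℝ)) (b : (β → ZMod 2) → ℝ)
    (adj : ∀ ω f g, 𝔼 x, G ω f x * g x = 𝔼 x, f x * G' ω g x) (δ : ℝ) (hδ : 0 ≤ δ)
    (hB : ∀ ω (f : X → ℝ), U01 f → 𝔼 x, (G ω f x) ^ 2 ≤ b ω)
    (hC : ∀ f : X → ℝ, U01 f → 𝔼 ω, 𝔼 x, (G' ω f x) ^ 2 ≤ δ ^ 2)
    (s : β → ZMod 2) (u : Fin d → Bt β d) (F : X → (β ⊕ Fin d → A) → ℝ)
    (hF : ∀ x, U01 (F x)) :
    𝔼 x, 𝔼 z, (Gn p e G s u F x z) ^ 2 ≤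
      (𝔼 ω, b ω) + 2 * (2 * δ + δ * (Fintype.card (β → ZMod 2) : ℝ) *
        (errf u + 𝔼 u' : Fin d → Bt β d, errf u')) + 1 := by
  classical
  have hcard : (0:ℝ) ≤ (Fintype.card (β → ZMod 2) : ℝ) := Nat.cast_nonneg _
  -- expansion
  have hexp : 𝔼 x, 𝔼 z, (Gn p e G s u F x z) ^ 2 =
      (𝔼 x, 𝔼 z, (G (sg p s z) (fun x' => F x' z) x) ^ 2)
      + 2 * (𝔼 x, 𝔼 z, G (sg p s z) (fun x' => F x' z) x * Rop e u (F x) z)
      + 𝔼 x, 𝔼 z, (Rop e u (F x) z) ^ 2 := by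
    rw [Finset.mul_expect, ← Finset.expect_add_distrib, ← Finset.expect_add_distrib]
    refine Finset.expect_congr rfl (fun x _ => ?_)
    rw [Finset.mul_expect, ← Finset.expect_add_distrib, ← Finset.expect_add_distrib]
    refine Finset.expect_congr rfl (fun z _ => ?_)
    unfold Gn
    ring
  -- (1)
  have h1 : 𝔼 x, 𝔼 z, (G (sg p s z) (fun x' => F x' z) x) ^ 2 ≤ 𝔼 ω, b ω := by
    rw [Finset.expect_comm]
    calc 𝔼 z, 𝔼 x, (G (sg p s z) (fun x' => F x' z) x) ^ 2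
        ≤ 𝔼 z : β ⊕ Fin d → A, b (sg p s z) :=
          Finset.expect_le_expect (fun z _ => hB _ _ (fun x => hF x z))
      _ = 𝔼 ω, b ω := expect_sg e p he s b
  -- (2)
  have h2 : 𝔼 x, 𝔼 z, (Rop e u (F x) z) ^ 2 ≤ 1 :=
    Bn_expect_le_const _ 1 zero_le_one (fun x =>
      Bn_expect_le_const _ 1 zero_le_one (fun z => Bn_Rop_abs e u (F x) (hF x) z))
  -- (3)
  have h3a : 𝔼 x, 𝔼 z, G (sg p s z) (fun x' => F x' z) x * Rop e u (F x) z =
      (𝔼 x, 𝔼 z, G (sg p s z) (fun x' => F x' z) x * Tu e u (F x) z)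
      - 𝔼 u' : Fin d → Bt β d, 𝔼 x, 𝔼 z,
          G (sg p s z) (fun x' => F x' z) x * Tu e u' (F x) z := by
    have e1 : 𝔼 u' : Fin d → Bt β d, 𝔼 x, 𝔼 z,
          G (sg p s z) (fun x' => F x' z) x * Tu e u' (F x) z =
        𝔼 x, 𝔼 z, G (sg p s z) (fun x' => F x' z) x * 𝔼 u' : Fin d → Bt β d, Tu e u' (F x) z := by
      rw [Finset.expect_comm]
      refine Finset.expect_congr rfl (fun x _ => ?_)
      rw [Finset.expect_comm]
      refine Finset.expect_congr rfl (fun z _ => ?_)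
      rw [Finset.mul_expect]
    rw [e1, ← Finset.expect_sub_distrib]
    refine Finset.expect_congr rfl (fun x _ => ?_)
    rw [← Finset.expect_sub_distrib]
    refine Finset.expect_congr rfl (fun z _ => ?_)
    unfold Rop
    ring
  have hc := fun u : Fin d → Bt β d => cross e p he G G' adj δ hδ hC s u F hF
  have h3b : 𝔼 x, 𝔼 z, G (sg p s z) (fun x' => F x' z) x * Tu e u (F x) z ≤
      δ + δ * (Fintype.card (β → ZMod 2) : ℝ) * errf u := le_trans (le_abs_self _) (hc u)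
  have h3c : -(𝔼 u' : Fin d → Bt β d, 𝔼 x, 𝔼 z,
          G (sg p s z) (fun x' => F x' z) x * Tu e u' (F x) z) ≤
      δ + δ * (Fintype.card (β → ZMod 2) : ℝ) * 𝔼 u' : Fin d → Bt β d, errf u' := by
    have e2 : δ + δ * (Fintype.card (β → ZMod 2) : ℝ) * (𝔼 u' : Fin d → Bt β d, errf u') =
        𝔼 u' : Fin d → Bt β d, (δ + δ * (Fintype.card (β → ZMod 2) : ℝ) * errf u') := by
      rw [Finset.expect_add_distrib, Finset.expect_const Finset.univ_nonempty, Finset.mul_expect]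
    rw [e2, ← Finset.expect_neg_distrib]
    refine Finset.expect_le_expect (fun u' _ => ?_)
    exact le_trans (neg_le_abs _) (hc u')
  rw [hexp, h3a]
  nlinarith [h1, h2, h3b, h3c]

end R3A
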