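import Pool.Agent.Helper850.RA.Defs

set_option autoImplicit false

namespace R3A
open Finset BigOperators


theorem indep_cross {T : Type} [Fintype T] {d : ℕ} (H : Fin d → T → ℝ)
    (h0 : ∀ v, ∑ a, H v a = 0) (v w : Fin d) (hvw : v ≠ w) :
    ∑ u : Fin d → T, H v (u v) * H w (u w) = 0 := by
  classical
  let f : Fin d → T → ℝ := fun i a => if i = v then H v a else if i = w then H w a else 1
  have h1 : ∀ u : Fin d → T, ∏ i, f i (u i) = H v (u v) * H w (u w) := by
    intro u
    rw [Finset.prod_eq_mul v w hvw (f := fun i => f i (u i))]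
    · simp [f, hvw.symm]
    · intro c _ hc
      simp [f, hc.1, hc.2]
    · intro h; exact absurd (Finset.mem_univ v) h
    · intro h; exact absurd (Finset.mem_univ w) h
  have h2 := Finset.prod_univ_sum (fun _ : Fin d => (Finset.univ : Finset T)) f
  rw [Fintype.piFinset_univ] at h2
  rw [← Finset.sum_congr rfl (fun u _ => h1 u), ← h2]
  refine Finset.prod_eq_zero (Finset.mem_univ v) ?_
  simp [f, h0]

theorem indep {T : Type} [Fintype T] [Nonempty T] {d : ℕ} (H : Fin d → T → ℝ)
    (h0 : ∀ v, 𝔼 a, H v a = 0) (h1 : ∀ v a, |H v a| ≤ 1) :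
    𝔼 u : Fin d → T, (𝔼 v, H v (u v)) ^ 2 ≤ 1 / (d : ℝ) := by
  classical
  have hT : (0 : ℝ) < Fintype.card T := by exact_mod_cast Fintype.card_pos
  have h0' : ∀ v, ∑ a, H v a = 0 := by
    intro v
    have := h0 v
    rw [Fintype.expect_eq_sum_div_card, div_eq_zero_iff] at this
    rcases this with h | h
    · exact h
    · exact absurd h hT.ne'
  rcases Nat.eq_zero_or_pos d with hd | hd
  · subst hd
    simp
  have hd' : (0 : ℝ) < d := by exact_mod_cast hd
  have hsum : ∑ u : Fin d → T, (∑ v, H v (u v)) ^ 2 ≤ (Fintype.card (Fin d → T) : ℝ) * d := by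
    have e1 : ∑ u : Fin d → T, (∑ v, H v (u v)) ^ 2 =
        ∑ v : Fin d, ∑ w : Fin d, ∑ u : Fin d → T, H v (u v) * H w (u w) := by
      have : ∀ u : Fin d → T, (∑ v, H v (u v)) ^ 2 = ∑ v, ∑ w, H v (u v) * H w (u w) := by
        intro u
        rw [sq, Finset.sum_mul_sum]
      rw [Finset.sum_congr rfl (fun u _ => this u), Finset.sum_comm]
      refine Finset.sum_congr rfl fun v _ => ?_
      rw [Finset.sum_comm]
    have e2 : ∀ v : Fin d, ∑ w : Fin d, ∑ u : Fin d → T, H v (u v) * H w (u w) =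
        ∑ u : Fin d → T, H v (u v) * H v (u v) := by
      intro v
      refine Finset.sum_eq_single v ?_ ?_
      · intro w _ hw
        exact indep_cross H h0' v w (Ne.symm hw)
      · intro h; exact absurd (Finset.mem_univ v) h
    rw [e1, Finset.sum_congr rfl (fun v _ => e2 v)]
    have e3 : ∀ v : Fin d, ∑ u : Fin d → T, H v (u v) * H v (u v) ≤ (Fintype.card (Fin d → T) : ℝ) := by
      intro v
      have : ∀ u : Fin d → T, H v (u v) * H v (u v) ≤ 1 := by
        intro u
        have := h1 v (u v)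
        rw [abs_le] at this
        nlinarith [this.1, this.2]
      calc ∑ u : Fin d → T, H v (u v) * H v (u v) ≤ ∑ u : Fin d → T, (1 : ℝ) :=
            Finset.sum_le_sum fun u _ => this u
        _ = _ := by simp
    calc ∑ v : Fin d, ∑ u : Fin d → T, H v (u v) * H v (u v)
        ≤ ∑ v : Fin d, (Fintype.card (Fin d → T) : ℝ) := Finset.sum_le_sum fun v _ => e3 v
      _ = _ := by simp [mul_comm]
  have hc : (0 : ℝ) < Fintype.card (Fin d → T) := by exact_mod_cast Fintype.card_pos
  have e4 : ∀ u : Fin d → T, (𝔼 v, H v (u v)) ^ 2 = (∑ v, H v (u v)) ^ 2 / (d : ℝ) ^ 2 := by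
    intro u
    rw [Fintype.expect_eq_sum_div_card, div_pow, Fintype.card_fin]
  rw [Fintype.expect_eq_sum_div_card, Finset.sum_congr rfl (fun u _ => e4 u), ← Finset.sum_div,
    div_div, div_le_div_iff₀ (by positivity) hd']
  calc (∑ u : Fin d → T, (∑ v, H v (u v)) ^ 2) * (d : ℝ)
      ≤ ((Fintype.card (Fin d → T) : ℝ) * d) * d := mul_le_mul_of_nonneg_right hsum hd'.le
    _ = 1 * ((d : ℝ) ^ 2 * (Fintype.card (Fin d → T) : ℝ)) := by ring

end R3A
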