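import Pool.Agent.Helper850.RA.Defs
import Pool.Agent.Helper850.RA.P_indep
import Pool.Agent.Helper850.RA.P_expect_eval

set_option autoImplicit false

namespace R3A
open Finset BigOperators


theorem Rop_sq {β A : Type} {d : ℕ} [Fintype β] [DecidableEq β] [AddCommGroup A] (e : A)
    (f : (β ⊕ Fin d → A) → ℝ) (hf : U01 f) (z : β ⊕ Fin d → A) :
    𝔼 u : Fin d → Bt β d, (Rop' e u f z) ^ 2 ≤ 1 / (d : ℝ) := by
  have hm : ∀ v : Fin d, 0 ≤ 𝔼 a : Bt β d, f (sh e (-(wv a v)) z) ∧
      𝔼 a : Bt β d, f (sh e (-(wv a v)) z) ≤ 1 := fun v =>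
    ⟨Finset.expect_nonneg fun a _ => (hf _).1,
      Finset.expect_le Finset.univ_nonempty fun a _ => (hf _).2⟩
  have key : ∀ u : Fin d → Bt β d, Rop' e u f z =
      𝔼 v, (f (sh e (-(wv (u v) v)) z) - 𝔼 a : Bt β d, f (sh e (-(wv a v)) z)) := by
    intro u
    rw [Finset.expect_sub_distrib]
    unfold Rop' Tu'
    congr 1
    rw [Finset.expect_comm]
    refine Finset.expect_congr rfl fun v _ => ?_
    exact expect_eval v (fun a : Bt β d => f (sh e (-(wv a v)) z))
  simp only [key]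
  refine indep (fun v (a : Bt β d) => f (sh e (-(wv a v)) z) -
    𝔼 a : Bt β d, f (sh e (-(wv a v)) z)) ?_ ?_
  · intro v
    rw [Finset.expect_sub_distrib, Fintype.expect_const, sub_self]
  · intro v a
    rw [abs_le]
    have h1 := hf (sh e (-(wv a v)) z)
    have h2 := hm v
    constructor <;> linarith [h1.1, h1.2, h2.1, h2.2]

end R3A
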