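import Pool.Agent.Helper850.RA.Defs

set_option autoImplicit false

namespace R3A
open Finset BigOperators


theorem expect_sg_s {β A : Type} {d : ℕ} [Fintype β] [DecidableEq β] [AddCommGroup A]
    (p : A →+ ZMod 2) (z : β ⊕ Fin d → A) (F : (β → ZMod 2) → ℝ) :
    𝔼 s, F (sg p s z) = 𝔼 ρ, F ρ := by
  refine Fintype.expect_equiv (Equiv.addRight (fun b => p (z (Sum.inl b)))) _ _ ?_
  intro s
  rfl

end R3A
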