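import Pool.Agent.Helper850.RA.Defs
import Pool.Agent.Helper850.RA.P_expect_sg_s
import Pool.Agent.Helper850.RA.P_Rop_sq

set_option autoImplicit false

namespace R3A
open Finset BigOperators


theorem C_new_aux {I : Type} [Fintype I] (f : I → ℝ) (c : ℝ) (hc : 0 ≤ c) (h : ∀ i, f i ≤ c) :
    𝔼 i, f i ≤ c := by
  rcases isEmpty_or_nonempty I with hI | hI
  · simpa using hc
  · exact Finset.expect_le Finset.univ_nonempty (fun i _ => h i)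

theorem C_new {β A X : Type} {d : ℕ} [Fintype β] [DecidableEq β] [AddCommGroup A]
    [Fintype A] [Fintype X] (e : A) (p : A →+ ZMod 2)
    (G' : (β → ZMod 2) → (X → ℝ) → (X → ℝ)) (δ : ℝ)
    (hC : ∀ f : X → ℝ, U01 f → 𝔼 ω, 𝔼 x, (G' ω f x) ^ 2 ≤ δ ^ 2)
    (F : X → (β ⊕ Fin d → A) → ℝ) (hF : ∀ x, U01 (F x)) :
    𝔼 s, 𝔼 u : Fin d → Bt β d, 𝔼 x, 𝔼 z, (Gn' p e G' s u F x z) ^ 2 ≤
      2 * δ ^ 2 + 2 / (d : ℝ) := by
  classical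
  have hd0 : (0:ℝ) ≤ 1 / (d : ℝ) := by positivity
  have hδ0 : 0 ≤ δ ^ 2 := sq_nonneg _
  have h1 : 𝔼 s, 𝔼 u : Fin d → Bt β d, 𝔼 x, 𝔼 z, (Gn' p e G' s u F x z) ^ 2 ≤
      𝔼 s, 𝔼 u : Fin d → Bt β d, 𝔼 x, 𝔼 z,
        (2 * (G' (sg p s z) (fun x' => F x' z) x) ^ 2 + 2 * (Rop' e u (F x) z) ^ 2) := by
    refine Finset.expect_le_expect fun s _ => Finset.expect_le_expect fun u _ =>
      Finset.expect_le_expect fun x _ => Finset.expect_le_expect fun z _ => ?_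
    unfold Gn'
    nlinarith [sq_nonneg (G' (sg p s z) (fun x' => F x' z) x - Rop' e u (F x) z)]
  have h2 : 𝔼 s, 𝔼 u : Fin d → Bt β d, 𝔼 x, 𝔼 z,
        (2 * (G' (sg p s z) (fun x' => F x' z) x) ^ 2 + 2 * (Rop' e u (F x) z) ^ 2) =
      2 * (𝔼 s, 𝔼 _u : Fin d → Bt β d, 𝔼 x, 𝔼 z, (G' (sg p s z) (fun x' => F x' z) x) ^ 2) +
      2 * (𝔼 _s : β → ZMod 2, 𝔼 u : Fin d → Bt β d, 𝔼 x, 𝔼 z, (Rop' e u (F x) z) ^ 2) := by
    simp only [Finset.expect_add_distrib, Finset.mul_expect]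
  have h3 : 𝔼 s, 𝔼 _u : Fin d → Bt β d, 𝔼 x, 𝔼 z, (G' (sg p s z) (fun x' => F x' z) x) ^ 2 ≤
      δ ^ 2 := by
    have e1 : 𝔼 s, 𝔼 _u : Fin d → Bt β d, 𝔼 x, 𝔼 z, (G' (sg p s z) (fun x' => F x' z) x) ^ 2 =
        𝔼 z, 𝔼 s, 𝔼 x, (G' (sg p s z) (fun x' => F x' z) x) ^ 2 := by
      have e2 : ∀ s : β → ZMod 2, 𝔼 _u : Fin d → Bt β d, 𝔼 x, 𝔼 z,
          (G' (sg p s z) (fun x' => F x' z) x) ^ 2 =
          𝔼 z, 𝔼 x, (G' (sg p s z) (fun x' => F x' z) x) ^ 2 := by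
        intro s
        rw [Finset.expect_const Finset.univ_nonempty, Finset.expect_comm]
      simp only [e2]
      rw [Finset.expect_comm]
    rw [e1]
    refine C_new_aux _ _ hδ0 fun z => ?_
    rw [expect_sg_s p z (fun ρ => 𝔼 x, (G' ρ (fun x' => F x' z) x) ^ 2)]
    exact hC _ (fun x' => hF x' z)
  have h4 : 𝔼 _s : β → ZMod 2, 𝔼 u : Fin d → Bt β d, 𝔼 x, 𝔼 z, (Rop' e u (F x) z) ^ 2 ≤
      1 / (d : ℝ) := by
    refine C_new_aux _ _ hd0 fun _ => ?_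
    rw [Finset.expect_comm]
    refine C_new_aux _ _ hd0 fun x => ?_
    rw [Finset.expect_comm]
    refine C_new_aux _ _ hd0 fun z => ?_
    exact Rop_sq e (F x) (hF x) z
  rw [h2] at h1
  have h5 : 2 / (d : ℝ) = 2 * (1 / (d : ℝ)) := by ring
  rw [h5]
  linarith

end R3A
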