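import Pool.Agent.Helper850.RA.Defs
import Pool.Agent.Helper850.RA.P_expect_sh

set_option autoImplicit false

namespace R3A
open Finset BigOperators


theorem adj_new_sh {K A : Type} [AddCommGroup A] (e : A) (w : K → ℤ) (z : K → A) :
    sh e (-w) (sh e w z) = z := by
  funext i
  simp [sh]

theorem adj_new_tu {β A : Type} {d : ℕ} [Fintype β] [DecidableEq β] [AddCommGroup A] [Fintype A]
    (e : A) (u : Fin d → Bt β d) (f h : (β ⊕ Fin d → A) → ℝ) :
    𝔼 z, Tu e u f z * h z = 𝔼 z, f z * Tu' e u h z := by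
  unfold Tu Tu'
  simp_rw [Finset.expect_mul, Finset.mul_expect]
  rw [Finset.expect_comm, Finset.expect_comm (s := univ) (t := univ)
    (f := fun z v => f z * h (sh e (-(wv (u v) v)) z))]
  refine Finset.expect_congr rfl (fun v _ => ?_)
  rw [← expect_sh e (wv (u v) v) (fun z => f z * h (sh e (-(wv (u v) v)) z))]
  refine Finset.expect_congr rfl (fun z _ => ?_)
  rw [adj_new_sh]

theorem adj_new_av {β A : Type} {d : ℕ} [Fintype β] [DecidableEq β] [AddCommGroup A] [Fintype A]
    (e : A) (f h : (β ⊕ Fin d → A) → ℝ) :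
    𝔼 z, (𝔼 u' : Fin d → Bt β d, Tu e u' f z) * h z
      = 𝔼 z, f z * (𝔼 u' : Fin d → Bt β d, Tu' e u' h z) := by
  simp_rw [Finset.expect_mul, Finset.mul_expect]
  rw [Finset.expect_comm, Finset.expect_comm (s := univ) (t := univ)
    (f := fun z u' => f z * Tu' e u' h z)]
  refine Finset.expect_congr rfl (fun u' _ => ?_)
  exact adj_new_tu e u' f h

theorem adj_new_rop {β A : Type} {d : ℕ} [Fintype β] [DecidableEq β] [AddCommGroup A] [Fintype A]
    (e : A) (u : Fin d → Bt β d) (f h : (β ⊕ Fin d → A) → ℝ) :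
    𝔼 z, Rop e u f z * h z = 𝔼 z, f z * Rop' e u h z := by
  unfold Rop Rop'
  simp_rw [sub_mul, mul_sub]
  rw [Finset.expect_sub_distrib, Finset.expect_sub_distrib, adj_new_tu, adj_new_av]

theorem adj_new {β A X : Type} {d : ℕ} [Fintype β] [DecidableEq β] [AddCommGroup A]
    [Fintype A] [Fintype X] (e : A) (p : A →+ ZMod 2)
    (G G' : (β → ZMod 2) → (X → ℝ) → (X → ℝ))
    (adj : ∀ ω f g, 𝔼 x, G ω f x * g x = 𝔼 x, f x * G' ω g x)
    (s : β → ZMod 2) (u : Fin d → Bt β d) (F H : X → (β ⊕ Fin d → A) → ℝ) :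
    𝔼 x, 𝔼 z, Gn p e G s u F x z * H x z = 𝔼 x, 𝔼 z, F x z * Gn' p e G' s u H x z := by
  unfold Gn Gn'
  simp_rw [add_mul, mul_add, Finset.expect_add_distrib]
  congr 1
  · rw [Finset.expect_comm, Finset.expect_comm (s := univ) (t := univ)
      (f := fun x z => F x z * G' (sg p s z) (fun x' => H x' z) x)]
    refine Finset.expect_congr rfl (fun z _ => ?_)
    exact adj (sg p s z) (fun x' => F x' z) (fun x' => H x' z)
  · refine Finset.expect_congr rfl (fun x _ => ?_)
    exact adj_new_rop e u (F x) (H x)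

end R3A
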