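import Pool.Agent.Helper850.RA.Defs

set_option autoImplicit false

namespace R3A
open Finset BigOperators


theorem conv1 {ι K A : Type} [Fintype ι] [DecidableEq ι] [Fintype K] [DecidableEq K] [Fintype A]
    (F : (ι ⊕ K → A) → ℝ) :
    𝔼 y, F y = 𝔼 x : ι → A, 𝔼 z : K → A, F (Sum.elim x z) := by
  have h1 : 𝔼 y, F y = 𝔼 q : (ι → A) × (K → A), F (Sum.elim q.1 q.2) := by
    apply Fintype.expect_equiv (Equiv.sumArrowEquivProdArrow ι K A)
    intro y
    congr 1
    funext i
    rcases i with i | i <;> rfl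
  rw [h1, ← Finset.univ_product_univ, Finset.expect_product]

end R3A
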