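import Pool.Agent.Helper850.RA.Defs

set_option autoImplicit false

namespace R3A
open Finset BigOperators


theorem conv2 {β : Type} [Fintype β] [DecidableEq β] {d : ℕ}
    (F : (IB β d → ZMod 2) → ℝ) :
    𝔼 ω, F ω = 𝔼 s : β → ZMod 2, 𝔼 u : Fin d → Bt β d,
      F (Sum.elim s (fun t => u t.1 t.2)) := by
  let e : (IB β d → ZMod 2) ≃ (β → ZMod 2) × (Fin d → Bt β d) :=
    (Equiv.sumArrowEquivProdArrow β (Fin d × ((β ⊕ Fin d) × Bool)) (ZMod 2)).trans
      (Equiv.prodCongr (Equiv.refl _) (Equiv.curry (Fin d) ((β ⊕ Fin d) × Bool) (ZMod 2)))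
  have h1 : 𝔼 ω, F ω = 𝔼 p : (β → ZMod 2) × (Fin d → Bt β d),
      F (Sum.elim p.1 (fun t => p.2 t.1 t.2)) := by
    refine Fintype.expect_equiv e _ _ (fun ω => ?_)
    congr 1
    funext i
    rcases i with b | ⟨v, t⟩ <;> rfl
  rw [h1, ← Finset.univ_product_univ, Finset.expect_product]

end R3A
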