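import Pool.Agent.Helper850.RA.Defs

set_option autoImplicit false

namespace R3A
open Finset BigOperators


theorem tau_unif {β : Type} {d : ℕ} [Fintype β] [DecidableEq β] (F : (β → ZMod 2) → ℝ) :
    𝔼 a : Bt β d, F (tau a) = 𝔼 ρ, F ρ := by
  have h1 : ∀ ρ : β → ZMod 2, 𝔼 a : Bt β d, F (tau a + ρ) = 𝔼 a : Bt β d, F (tau a) := by
    intro ρ
    let c : Bt β d := fun x => match x with
      | (Sum.inl b, false) => ρ b
      | _ => 0
    have hc : ∀ a : Bt β d, tau (a + c) = tau a + ρ := by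
      intro a
      funext b
      simp only [tau, c, Pi.add_apply]
      ring
    refine Fintype.expect_equiv (Equiv.addRight c) _ _ (fun a => ?_)
    rw [Equiv.coe_addRight, hc]
  have h2 : 𝔼 a : Bt β d, F (tau a) = 𝔼 ρ : β → ZMod 2, 𝔼 a : Bt β d, F (tau a + ρ) := by
    rw [Finset.expect_congr rfl (fun ρ _ => h1 ρ), Fintype.expect_const]
  have h3 : ∀ a : Bt β d, 𝔼 ρ : β → ZMod 2, F (tau a + ρ) = 𝔼 ρ, F ρ := fun a =>
    Fintype.expect_equiv (Equiv.addLeft (tau a)) _ _ (fun ρ => rfl)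
  rw [h2, Finset.expect_comm, Finset.expect_congr rfl (fun a _ => h3 a), Fintype.expect_const]

end R3A
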