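import Pool.Agent.Helper850.RA.Defs
import Pool.Agent.Helper850.RA.P_indep
import Pool.Agent.Helper850.RA.P_tau_unif

set_option autoImplicit false

namespace R3A
open Finset BigOperators


theorem x18714_one {β : Type} {d : ℕ} [Fintype β] [DecidableEq β] (η : ℝ) (hη : 0 < η)
    (hd : 1 ≤ η ^ 2 * d) (ρ : β → ZMod 2) :
    𝔼 u : Fin d → Bt β d, |(𝔼 v : Fin d, if tau (u v) = ρ then (1 : ℝ) else 0)
      - 1 / (Fintype.card (β → ZMod 2) : ℝ)| ≤ η := by
  have hdpos : 0 < d := by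
    rcases Nat.eq_zero_or_pos d with h | h
    · subst h
      norm_num at hd
    · exact h
  haveI : Nonempty (Fin d) := ⟨⟨0, hdpos⟩⟩
  have hdR : (0 : ℝ) < d := by exact_mod_cast hdpos
  set N : ℝ := (Fintype.card (β → ZMod 2) : ℝ) with hN
  have hN1 : 1 ≤ N := by
    have : 0 < Fintype.card (β → ZMod 2) := Fintype.card_pos
    rw [hN]
    exact_mod_cast this
  have hc0 : 0 < 1 / N := by positivity
  have hc1 : 1 / N ≤ 1 := by
    rw [div_le_one (by linarith)]; exact hN1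
  let H : Fin d → Bt β d → ℝ := fun _ a => (if tau a = ρ then (1 : ℝ) else 0) - 1 / N
  have h0 : ∀ v, 𝔼 a, H v a = 0 := by
    intro v
    show 𝔼 a : Bt β d, ((if tau a = ρ then (1 : ℝ) else 0) - 1 / N) = 0
    rw [tau_unif (fun ρ' => (if ρ' = ρ then (1 : ℝ) else 0) - 1 / N), Finset.expect_sub_distrib,
      Finset.expect_eq_sum_div_card, Fintype.expect_const]
    simp [hN]
  have h1 : ∀ v a, |H v a| ≤ 1 := by
    intro v a
    show |(if tau a = ρ then (1 : ℝ) else 0) - 1 / N| ≤ 1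
    split_ifs
    · rw [abs_le]; constructor <;> linarith
    · rw [abs_le]; constructor <;> linarith
  have hind := indep H h0 h1
  have hH : ∀ u : Fin d → Bt β d, 𝔼 v, H v (u v) =
      (𝔼 v : Fin d, if tau (u v) = ρ then (1 : ℝ) else 0) - 1 / N := by
    intro u
    show 𝔼 v : Fin d, ((if tau (u v) = ρ then (1 : ℝ) else 0) - 1 / N) = _
    rw [Finset.expect_sub_distrib, Fintype.expect_const]
  simp only [hH] at hind
  have hpt : ∀ u : Fin d → Bt β d,
      |(𝔼 v : Fin d, if tau (u v) = ρ then (1 : ℝ) else 0) - 1 / N| ≤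
      η / 2 + (1 / (2 * η)) *
        ((𝔼 v : Fin d, if tau (u v) = ρ then (1 : ℝ) else 0) - 1 / N) ^ 2 := by
    intro u
    generalize (𝔼 v : Fin d, if tau (u v) = ρ then (1 : ℝ) else 0) - 1 / N = t
    have h2 : 0 ≤ (|t| - η) ^ 2 := sq_nonneg _
    have h3 : η / 2 + 1 / (2 * η) * t ^ 2 - |t| = (|t| - η) ^ 2 / (2 * η) := by
      field_simp
      rw [← sq_abs t]
      ring
    have h4 : 0 ≤ (|t| - η) ^ 2 / (2 * η) := by positivity
    linarith
  calc 𝔼 u : Fin d → Bt β d, |(𝔼 v : Fin d, if tau (u v) = ρ then (1 : ℝ) else 0) - 1 / N|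
      ≤ 𝔼 u : Fin d → Bt β d, (η / 2 + (1 / (2 * η)) *
        ((𝔼 v : Fin d, if tau (u v) = ρ then (1 : ℝ) else 0) - 1 / N) ^ 2) :=
        Finset.expect_le_expect fun u _ => hpt u
    _ = η / 2 + (1 / (2 * η)) * 𝔼 u : Fin d → Bt β d,
        ((𝔼 v : Fin d, if tau (u v) = ρ then (1 : ℝ) else 0) - 1 / N) ^ 2 := by
        rw [Finset.expect_add_distrib, Fintype.expect_const, Finset.mul_expect]
    _ ≤ η / 2 + (1 / (2 * η)) * (1 / (d : ℝ)) := by
        have : 0 ≤ 1 / (2 * η) := by positivity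
        have := mul_le_mul_of_nonneg_left hind this
        linarith
    _ ≤ η := by
        have h5 : 1 / (d : ℝ) ≤ η ^ 2 := by
          rw [div_le_iff₀ hdR]; exact hd
        have h6 : (1 / (2 * η)) * (1 / (d : ℝ)) ≤ (1 / (2 * η)) * η ^ 2 :=
          mul_le_mul_of_nonneg_left h5 (by positivity)
        have h7 : (1 / (2 * η)) * η ^ 2 = η / 2 := by field_simp
        linarith

theorem err_bound {β : Type} {d : ℕ} [Fintype β] [DecidableEq β] (η : ℝ) (hη : 0 < η)
    (hd : 1 ≤ η ^ 2 * d) :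
    𝔼 u : Fin d → Bt β d, errf u ≤ (Fintype.card (β → ZMod 2) : ℝ) * η := by
  unfold errf
  rw [Finset.expect_sum_comm]
  calc _ ≤ ∑ _ρ : β → ZMod 2, η := Finset.sum_le_sum fun ρ _ => x18714_one η hη hd ρ
    _ = (Fintype.card (β → ZMod 2) : ℝ) * η := by
      rw [Finset.sum_const, nsmul_eq_mul]
      rfl

end R3A
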