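import Pool.Agent.Helper850.RA.Defs
import Pool.Agent.Helper850.RA.P_err_bound
import Pool.Agent.Helper850.RA.P_B_new
import Pool.Agent.Helper850.RA.P_C_new
import Pool.Agent.Helper850.RA.P_adj_new
import Pool.Agent.Helper850.RA.P_A_new
import Pool.Agent.Helper850.RA.P_conv1
import Pool.Agent.Helper850.RA.P_conv2

set_option autoImplicit false

namespace R3A
open Finset BigOperators


theorem good_step {ι β : Type} [Fintype ι] [DecidableEq ι] [Fintype β] [DecidableEq β]
    (V : (β → ZMod 2) → ι → (ι → ZMod 2) → ι → ℤ) (k : ℕ) (ε δ : ℝ) (d : ℕ)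
    (hε : 0 < ε) (hδ : 0 < δ) (hδ1 : δ ≤ 1 / 8) (hδ2 : δ ^ 2 ≤ ε / 4) (hd : 0 < d)
    (hd1 : (Fintype.card (β → ZMod 2) : ℝ) ^ 4 ≤ d) (hd2 : 4 / ε ≤ d)
    (hV : Good V k (δ ^ 2)) : Good (Vnew V d) (k + 1) ε := by
  obtain ⟨b, hb, hW⟩ := hV
  set cd : ℝ := (Fintype.card (β → ZMod 2) : ℝ) with hcd
  have hcd1 : 1 ≤ cd := by
    rw [hcd]
    exact_mod_cast Nat.succ_le_of_lt (Fintype.card_pos (α := β → ZMod 2))
  have hcd0 : 0 < cd := by linarith
  have hdR : (0:ℝ) < d := by exact_mod_cast hd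
  have hdinv : 1 / (d : ℝ) ≤ ε / 4 := by
    rw [div_le_div_iff₀ hdR (by norm_num)]
    rw [div_le_iff₀ hε] at hd2
    linarith
  set EE : ℝ := 𝔼 u' : Fin d → Bt β d, errf u' with hEE
  have hE : EE ≤ 1 / cd := by
    have h1 := err_bound (β := β) (d := d) (1 / cd ^ 2) (by positivity) (by
      rw [div_pow, one_pow, ← pow_mul, div_mul_eq_mul_div, one_mul, le_div_iff₀ (by positivity),
        one_mul]
      exact hd1)
    refine h1.trans (le_of_eq ?_)
    rw [← hcd]
    field_simp
  let sω : (IB β d → ZMod 2) → (β → ZMod 2) := fun ω b => ω (Sum.inl b)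
  let uω : (IB β d → ZMod 2) → (Fin d → Bt β d) := fun ω v t => ω (Sum.inr (v, t))
  refine ⟨fun ω => (𝔼 ω, b ω) + 2 * (2 * δ + δ * cd * (errf (uω ω) + EE)) + 1, ?_, ?_⟩
  · rw [conv2]
    have h1 : ∀ (s : β → ZMod 2) (u : Fin d → Bt β d),
        uω (Sum.elim s (fun t => u t.1 t.2)) = u := fun s u => rfl
    simp only [h1]
    rw [Finset.expect_const Finset.univ_nonempty]
    have h2 : 𝔼 u : Fin d → Bt β d, ((𝔼 ω, b ω) + 2 * (2 * δ + δ * cd * (errf u + EE)) + 1) =
        (𝔼 ω, b ω) + 2 * (2 * δ + δ * cd * (EE + EE)) + 1 := by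
      have h3 : ∀ u : Fin d → Bt β d, (𝔼 ω, b ω) + 2 * (2 * δ + δ * cd * (errf u + EE)) + 1 =
          (2 * δ * cd) * errf u + ((𝔼 ω, b ω) + 4 * δ + 2 * δ * cd * EE + 1) := by
        intro u; ring
      simp only [h3]
      rw [Finset.expect_add_distrib, ← Finset.mul_expect, Finset.expect_const Finset.univ_nonempty,
        ← hEE]
      ring
    rw [h2]
    have h4 : δ * cd * EE ≤ δ := by
      calc δ * cd * EE ≤ δ * cd * (1 / cd) := mul_le_mul_of_nonneg_left hE (by positivity)
        _ = δ := by field_simp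
    push_cast
    nlinarith
  · intro A _ _ e p he
    obtain ⟨G, G', w⟩ := hW A e p he
    haveI : Nonempty (ι → A) := ⟨fun _ => 0⟩
    let G2 : (IB β d → ZMod 2) → ((ι ⊕ (β ⊕ Fin d) → A) → ℝ) → ((ι ⊕ (β ⊕ Fin d) → A) → ℝ) :=
      fun ω f y => Gn p e G (sω ω) (uω ω) (fun x z => f (Sum.elim x z)) (fun i => y (Sum.inl i))
        (fun c => y (Sum.inr c))
    let G2' : (IB β d → ZMod 2) → ((ι ⊕ (β ⊕ Fin d) → A) → ℝ) → ((ι ⊕ (β ⊕ Fin d) → A) → ℝ) :=
      fun ω f y => Gn' p e G' (sω ω) (uω ω) (fun x z => f (Sum.elim x z)) (fun i => y (Sum.inl i))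
        (fun c => y (Sum.inr c))
    have hG2 : ∀ ω f (x : ι → A) (z : β ⊕ Fin d → A), G2 ω f (Sum.elim x z) =
        Gn p e G (sω ω) (uω ω) (fun x z => f (Sum.elim x z)) x z := fun ω f x z => rfl
    have hG2' : ∀ ω f (x : ι → A) (z : β ⊕ Fin d → A), G2' ω f (Sum.elim x z) =
        Gn' p e G' (sω ω) (uω ω) (fun x z => f (Sum.elim x z)) x z := fun ω f x z => rfl
    refine ⟨G2, G2', ?_, ?_, ?_, ?_⟩
    · intro ω f g
      rw [conv1, conv1]
      simp only [hG2, hG2']
      exact adj_new e p G G' w.adj (sω ω) (uω ω) (fun x z => f (Sum.elim x z))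
        (fun x z => g (Sum.elim x z))
    · intro ω f hf hI
      rw [conv1, conv1 (F := f)]
      simp only [hG2]
      have hA : ∀ z : β ⊕ Fin d → A, 𝔼 x : ι → A, f (Sum.elim x z) *
          G (sg p (sω ω) z) (fun x' => f (Sum.elim x' z)) x ≤
          -(k : ℝ) * (𝔼 x : ι → A, f (Sum.elim x z)) ^ 2 + k * δ ^ 2 := by
        intro z
        apply w.A (sg p (sω ω) z) (fun x => f (Sum.elim x z)) (fun x => hf _)
        intro x ℓ
        have h := hI (Sum.elim x z) (Sum.inl ℓ)
        have e1 : sh e (Vnew V d ω (Sum.inl ℓ) (fun i => p (Sum.elim x z i))) (Sum.elim x z) =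
            Sum.elim (sh e (V (sg p (sω ω) z) ℓ (fun i => p (x i))) x) z := by
          funext i
          rcases i with i | c
          · rfl
          · show z c + (0:ℤ) • e = z c
            rw [zero_smul, add_zero]
        rw [e1] at h
        exact h
      have hI' : ∀ (v : Fin d) (x : ι → A) (z : β ⊕ Fin d → A),
          f (Sum.elim x z) * f (Sum.elim x (sh e (wv (uω ω v) v) z)) = 0 := by
        intro v x z
        have h := hI (Sum.elim x z) (Sum.inr (Sum.inr v))
        have e1 : sh e (Vnew V d ω (Sum.inr (Sum.inr v)) (fun i => p (Sum.elim x z i)))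
            (Sum.elim x z) = Sum.elim x (sh e (wv (uω ω v) v) z) := by
          funext i
          rcases i with i | c
          · show x i + (0:ℤ) • e = x i
            rw [zero_smul, add_zero]
          · rfl
        rw [e1] at h
        exact h
      have h := A_new hd e p G (sω ω) (uω ω) (fun (x : ι → A) z => f (Sum.elim x z))
        (fun x z => hf _) k (δ ^ 2) hA hI'
      refine h.trans ?_
      have h1 : (k : ℝ) * δ ^ 2 ≤ k * ε := by
        apply mul_le_mul_of_nonneg_left _ (Nat.cast_nonneg k)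
        linarith
      push_cast
      linarith
    · intro ω f hf
      rw [conv1]
      simp only [hG2]
      exact B_new e p he G G' b w.adj δ hδ.le w.B w.C (sω ω) (uω ω)
        (fun (x : ι → A) z => f (Sum.elim x z)) (fun x z => hf _)
    · intro f hf
      rw [conv2]
      have h1 : ∀ (s : β → ZMod 2) (u : Fin d → Bt β d),
          (𝔼 y, (G2' (Sum.elim s (fun t => u t.1 t.2)) f y) ^ 2) =
          𝔼 x : ι → A, 𝔼 z : β ⊕ Fin d → A,
            (Gn' p e G' s u (fun x z => f (Sum.elim x z)) x z) ^ 2 := by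
        intro s u
        rw [conv1]
        rfl
      simp only [h1]
      have h := C_new e p G' δ w.C (fun (x : ι → A) (z : β ⊕ Fin d → A) => f (Sum.elim x z))
        (fun x z => hf _)
      refine h.trans ?_
      have h2 : 2 / (d : ℝ) = 2 * (1 / d) := by ring
      rw [h2]
      linarith

end R3A
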