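import Pool.Agent.Helper850.RA.Defs

set_option autoImplicit false

namespace R3A
open Finset BigOperators

theorem vs_dbit : ∀ a b : ZMod 2, |dbit a b| ≤ 1 := by decide

theorem vs_rk_le {ι : Type} [Fintype ι] (rk : ι → ℕ) (l : ι) : rk l ≤ ∑ l, rk l :=
  Finset.single_le_sum (f := rk) (fun _ _ => Nat.zero_le _) (Finset.mem_univ l)

theorem valid_step {ι β : Type} [Fintype ι] [DecidableEq ι] [Fintype β] [DecidableEq β]
    (rk : ι → ℕ) (V : (β → ZMod 2) → ι → (ι → ZMod 2) → ι → ℤ) (d : ℕ)
    (h : Valid rk V) : Valid (rknew (β := β) rk d) (Vnew V d) := by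
  have hr := vs_rk_le rk
  have hb : ∀ b : β, ((Fintype.equivFin β b : Fin _) : ℕ) < Fintype.card β := fun b => Fin.is_lt _
  refine ⟨?_, ?_, ?_, ?_, ?_⟩
  · rintro (l | b | v) (l' | b' | v') hh <;> simp only [rknew] at hh
    · rw [h.inj hh]
    · have := hr l; omega
    · have := hr l; omega
    · have := hr l'; omega
    · have h1 : ((Fintype.equivFin β b : Fin _) : ℕ) = (Fintype.equivFin β b' : Fin _) := by omega
      rw [(Fintype.equivFin β).injective (Fin.ext h1)]
    · have := hb b; omega
    · have := hr l'; omega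
    · have := hb b'; omega
    · have h1 : (v : ℕ) = v' := by omega
      rw [Fin.ext h1]
  · rintro ω (l | b | v) q
    · exact h.self _ l _
    · simp [Vnew]
    · simp [Vnew, wv]
  · rintro ω (l | b | v) q (l' | b' | v') hh <;> simp only [rknew] at hh
    · exact h.top _ _ _ _ hh
    · rfl
    · rfl
    · rfl
    · have h1 : b' ≠ b := by rintro rfl; omega
      simp [Vnew, h1]
    · rfl
    · rfl
    · have := hb b'; omega
    · have h1 : ¬ v' < v := by
        intro h2
        have : (v' : ℕ) < v := h2
        omega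
      have h2 : v' ≠ v := by rintro rfl; omega
      simp [Vnew, wv, h1, h2]
  · rintro ω (l | b | v) q (l' | b' | v')
    · exact h.abs _ _ _ _
    · simp [Vnew]
    · simp [Vnew]
    · simp [Vnew]
    · simp only [Vnew, Sum.elim_inr, Sum.elim_inl]
      split_ifs <;> simp
    · simp [Vnew]
    · simp [Vnew]
    · simp only [Vnew, Sum.elim_inr, wv]
      exact vs_dbit _ _
    · simp only [Vnew, Sum.elim_inr, wv]
      split_ifs
      · exact vs_dbit _ _
      · simp
      · simp
  · rintro ω (l | b | v) q q' hh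
    · have h1 : ∀ b : β, q (Sum.inr (Sum.inl b)) = q' (Sum.inr (Sum.inl b)) := fun b =>
        hh _ (by simp only [rknew]; have := hr l; omega)
      have h2 := h.dep (fun b => ω (Sum.inl b) + q (Sum.inr (Sum.inl b))) l
        (fun i => q (Sum.inl i)) (fun i => q' (Sum.inl i)) (fun l' hl' => hh _ hl')
      have h3 : (fun b => ω (Sum.inl b) + q (Sum.inr (Sum.inl b))) =
          (fun b => ω (Sum.inl b) + q' (Sum.inr (Sum.inl b))) := by
        funext b
        rw [h1]
      show Sum.elim (V (fun b => ω (Sum.inl b) + q (Sum.inr (Sum.inl b))) l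
          (fun i => q (Sum.inl i))) (fun _ => 0) =
        Sum.elim (V (fun b => ω (Sum.inl b) + q' (Sum.inr (Sum.inl b))) l
          (fun i => q' (Sum.inl i))) (fun _ => 0)
      rw [h2, h3]
    · rfl
    · rfl

end R3A
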