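import Pool.Agent.Helper850.RA.Defs
import Pool.Agent.Helper850.RA.P_good_step
import Pool.Agent.Helper850.RA.P_valid_step

set_option autoImplicit false

namespace R3A
open Finset BigOperators


theorem all_k (k : ℕ) : ∀ ε : ℝ, 0 < ε →
    ∃ (ι β : Type) (_ : Fintype ι) (_ : DecidableEq ι) (_ : Fintype β) (_ : DecidableEq β)
      (rk : ι → ℕ) (V : (β → ZMod 2) → ι → (ι → ZMod 2) → ι → ℤ),
      Valid rk V ∧ Good V k ε := by
  induction k with
  | zero =>
    intro ε hε
    refine ⟨Empty, Empty, inferInstance, inferInstance, inferInstance, inferInstance,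
      fun i => i.elim, fun _ i => i.elim, ⟨fun a => a.elim, fun _ l => l.elim, fun _ l => l.elim,
        fun _ l => l.elim, fun _ l => l.elim⟩, ?_⟩
    refine ⟨fun _ => 0, by simp, ?_⟩
    intro A _ _ e p hp
    refine ⟨fun _ _ _ => 0, fun _ _ _ => 0, ⟨?_, ?_, ?_, ?_⟩⟩
    · intro ω f g; simp
    · intro ω f _ _; simp
    · intro ω f _; simp
    · intro f _; simp; exact hε.le
  | succ k ih =>
    intro ε hε
    set δ : ℝ := min (1 / 8) (ε / 4) with hδdef
    have hδ : 0 < δ := lt_min (by norm_num) (by linarith)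
    have hδ1 : δ ≤ 1 / 8 := min_le_left _ _
    have hδ2 : δ ^ 2 ≤ ε / 4 := by
      have : δ ≤ ε / 4 := min_le_right _ _
      nlinarith
    obtain ⟨ι, β, i1, i2, i3, i4, rk, V, hv, hg⟩ := ih (δ ^ 2) (by positivity)
    obtain ⟨d0, hd0⟩ := exists_nat_ge (max ((Fintype.card (β → ZMod 2) : ℝ) ^ 4) (4 / ε))
    have h1 : (Fintype.card (β → ZMod 2) : ℝ) ^ 4 ≤ ((d0 + 1 : ℕ) : ℝ) := by
      have := (le_max_left _ _).trans hd0
      push_cast; linarith
    have h2 : 4 / ε ≤ ((d0 + 1 : ℕ) : ℝ) := by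
      have := (le_max_right _ _).trans hd0
      push_cast; linarith
    exact ⟨ι ⊕ (β ⊕ Fin (d0 + 1)), IB β (d0 + 1), inferInstance, inferInstance, inferInstance, inferInstance,
      rknew (β := β) rk (d0 + 1), Vnew V (d0 + 1), valid_step rk V (d0 + 1) hv,
      good_step V k ε δ (d0 + 1) hε hδ hδ1 hδ2 (Nat.succ_pos _) h1 h2 hg⟩

end R3A
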