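import Pool.Agent.Helper850.RA.Defs
import Pool.Agent.Helper850.RA.P_all_k

set_option autoImplicit false

namespace R3A
open Finset BigOperators


theorem core_ineq {X : Type} [Fintype X] [Nonempty X] (f g : X → ℝ) (hf : U01 f) (j : ℝ)
    (hj : 1 ≤ j) (k ε c : ℝ) (hk : k = 2 * j ^ 2) (hε : ε = c ^ 2 / 2) (hc : 0 < c)
    (hjc : 1 / j ≤ c ^ 2 / 2)
    (hA : 𝔼 x, f x * g x ≤ -k * (𝔼 x, f x) ^ 2 + k * ε)
    (hB : 𝔼 x, (g x) ^ 2 ≤ 2 * k) : 𝔼 x, f x ≤ c := by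
  have hj0 : 0 < j := by linarith
  have h1 : 𝔼 x, -(f x * g x) ≤ 𝔼 x, (j * (f x) ^ 2 + (1 / (4 * j)) * (g x) ^ 2) := by
    apply expect_le_expect
    intro x _
    have h2 : 0 ≤ (2 * j * f x + g x) ^ 2 / (4 * j) := by positivity
    have h3 : (2 * j * f x + g x) ^ 2 / (4 * j) =
        j * (f x) ^ 2 + f x * g x + (1 / (4 * j)) * (g x) ^ 2 := by
      field_simp
      ring
    linarith
  rw [expect_neg_distrib, expect_add_distrib, ← mul_expect, ← mul_expect] at h1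
  have h2 : 𝔼 x, (f x) ^ 2 ≤ 1 := by
    apply expect_le univ_nonempty
    intro x _
    have := hf x
    nlinarith [this.1, this.2]
  have h3 : j * 𝔼 x, (f x) ^ 2 ≤ j := by nlinarith
  have h4 : (1 / (4 * j)) * 𝔼 x, (g x) ^ 2 ≤ j := by
    have h5 : (1 / (4 * j)) * 𝔼 x, (g x) ^ 2 ≤ (1 / (4 * j)) * (2 * k) :=
      mul_le_mul_of_nonneg_left hB (by positivity)
    have h6 : (1 / (4 * j)) * (2 * k) = j := by
      rw [hk]
      field_simp
      ring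
    linarith
  set μ := 𝔼 x, f x with hμ
  have h5 : k * μ ^ 2 ≤ k * ε + 2 * j := by linarith
  have hk0 : 0 < k := by rw [hk]; positivity
  have h6 : μ ^ 2 ≤ c ^ 2 := by
    have h7 : 2 * j = k * (1 / j) := by
      rw [hk]
      field_simp
    have h8 : k * (1 / j) ≤ k * (c ^ 2 / 2) := mul_le_mul_of_nonneg_left hjc hk0.le
    have h9 : k * μ ^ 2 ≤ k * c ^ 2 := by
      rw [hε] at h5
      linarith
    exact le_of_mul_le_mul_left h9 hk0
  nlinarith [abs_le_of_sq_le_sq h6 hc.le]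

theorem core (c : ℝ) (hc : 0 < c) :
    ∃ (ι : Type) (_ : Fintype ι) (_ : DecidableEq ι)
      (rk : ι → ℕ) (V : ι → (ι → ZMod 2) → ι → ℤ),
      Valid rk (fun _ : Unit => V) ∧
      ∀ (A : Type) [AddCommGroup A] [Fintype A] (e : A) (p : A →+ ZMod 2), p e = 1 →
        ∀ f : (ι → A) → ℝ, U01 f → Ind V e p f → 𝔼 x, f x ≤ c := by
  obtain ⟨j, hj⟩ := exists_nat_ge (max 1 (2 / c ^ 2))
  have hj1 : (1 : ℝ) ≤ j := (le_max_left _ _).trans hj
  have hj2 : 2 / c ^ 2 ≤ (j : ℝ) := (le_max_right _ _).trans hj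
  have hj0 : (0 : ℝ) < j := by linarith
  have hjc : 1 / (j : ℝ) ≤ c ^ 2 / 2 := by
    rw [div_le_iff₀ (by positivity)] at hj2
    rw [div_le_div_iff₀ hj0 (by norm_num)]
    linarith
  obtain ⟨ι, β, i1, i2, i3, i4, rk, V, hV, b, hb, hG⟩ := all_k (2 * j ^ 2) (c ^ 2 / 2) (by positivity)
  obtain ⟨ω, _, hω⟩ := exists_le_of_expect_le univ_nonempty hb
  refine ⟨ι, i1, i2, rk, V ω, ⟨hV.inj, fun _ => hV.self ω, fun _ => hV.top ω, fun _ => hV.abs ω,
    fun _ => hV.dep ω⟩, ?_⟩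
  intro A _ _ e p hp f hf hI
  obtain ⟨G, G', W⟩ := hG A e p hp
  have hA := W.A ω f hf hI
  have hB := W.B ω f hf
  refine core_ineq f (G ω f) hf j hj1 ((2 * j ^ 2 : ℕ) : ℝ) (c ^ 2 / 2) c (by push_cast; ring) rfl
    hc hjc hA (hB.trans hω)

end R3A
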